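import Pool.Agent.helper34.XL.LP2

/-!
# Lifting of distributions; invariant distributions are norms
-/

set_option autoImplicit false

namespace Pool.Agent.helper34.EL

open Finset

section gen

variable {X Y Z : Type} [AddCommGroup X] [Fintype X] [DecidableEq X] [AddCommGroup Y]
  [AddCommGroup Z]

theorem IsDist.map {𝒴 : CS Y} {𝒵 : CS Z} {S : Set ℕ} {g : X → Y} (h : IsDist 𝒴 S g) (π : Y →+ Z)
    (hφ : ∀ q y, π (𝒴.φ q y) = 𝒵.φ q (π y)) : IsDist 𝒵 S (fun x => π (g x)) := by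
  intro a ha x
  rw [← hφ, ← h a ha x, map_sum]

theorem IsDist.of_map {𝒴 : CS Y} {𝒵 : CS Z} {S : Set ℕ} {g : X → Y} (π : Y →+ Z)
    (hπ : Function.Injective π) (hφ : ∀ q y, π (𝒴.φ q y) = 𝒵.φ q (π y))
    (h : IsDist 𝒵 S (fun x => π (g x))) : IsDist 𝒴 S g := by
  intro a ha x
  apply hπ
  rw [hφ, map_sum]
  exact h a ha x

theorem IsDist.add {𝒴 : CS Y} {S : Set ℕ} {g g' : X → Y} (h : IsDist 𝒴 S g)
    (h' : IsDist 𝒴 S g') : IsDist 𝒴 S (fun x => g x + g' x) := by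
  intro a ha x
  rw [Finset.sum_add_distrib, h a ha x, h' a ha x, map_add]

theorem IsDist.sub {𝒴 : CS Y} {S : Set ℕ} {g g' : X → Y} (h : IsDist 𝒴 S g)
    (h' : IsDist 𝒴 S g') : IsDist 𝒴 S (fun x => g x - g' x) := by
  intro a ha x
  rw [Finset.sum_sub_distrib, h a ha x, h' a ha x, map_sub]

theorem IsDist.zero {𝒴 : CS Y} {S : Set ℕ} : IsDist 𝒴 S (fun _ : X => (0 : Y)) := by
  intro a _ x
  rw [Finset.sum_const_zero, map_zero]

theorem IsDist.iota {𝒴 : CS Y} {S : Set ℕ} {g : X → Y} (h : IsDist 𝒴 S g) :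
    IsDist 𝒴 S (fun x => 𝒴.ι (g (-x))) := by
  intro a ha x
  rw [𝒴.φι, ← smul_neg, ← h a ha (-x), map_sum]
  refine Finset.sum_nbij' (fun y => -y) (fun y => -y) ?_ ?_ ?_ ?_ ?_
  · intro y hy
    rw [Finset.mem_filter] at hy ⊢
    exact ⟨mem_univ _, by rw [smul_neg, smul_neg, hy.2]⟩
  · intro y hy
    rw [Finset.mem_filter] at hy ⊢
    exact ⟨mem_univ _, by rw [smul_neg, hy.2, smul_neg, neg_neg]⟩
  · intro y _; exact neg_neg y
  · intro y _; exact neg_neg y
  · intro y _; rfl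

theorem IsDist.equiv {X' : Type} [AddCommGroup X'] [Fintype X'] [DecidableEq X'] {𝒴 : CS Y}
    {S : Set ℕ} {g : X' → Y} (h : IsDist 𝒴 S g) (e : X ≃+ X') : IsDist 𝒴 S (fun x => g (e x)) := by
  intro a ha x
  have h1 := h a ha (e x)
  change ∑ y ∈ univ.filter (fun y : X => a • y = a • x), g (e y) = 𝒴.φ a (g (e (a • x)))
  rw [map_nsmul e, ← h1]
  refine Finset.sum_nbij' (fun y => e y) (fun y => e.symm y) ?_ ?_ ?_ ?_ ?_
  · intro y hy
    rw [Finset.mem_filter] at hy ⊢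
    exact ⟨mem_univ _, by rw [← map_nsmul, hy.2, map_nsmul]⟩
  · intro y hy
    rw [Finset.mem_filter] at hy ⊢
    refine ⟨mem_univ _, ?_⟩
    apply e.injective
    rw [map_nsmul, e.apply_symm_apply, hy.2, map_nsmul]
  · intro y _; exact e.symm_apply_apply y
  · intro y _; exact e.apply_symm_apply y
  · intro y _; rfl

theorem LiftP_equiv {X' : Type} [AddCommGroup X'] [Fintype X'] [DecidableEq X'] (S : Set ℕ)
    (e : X ≃+ X') (h : LiftP X S) : LiftP X' S := by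
  intro Y Z _ _ 𝒴 𝒵 π hπ hφ g hg
  obtain ⟨f, hf, hf'⟩ := h Y Z 𝒴 𝒵 π hπ hφ _ (hg.equiv e)
  exact ⟨fun x => f (e.symm x), hf.equiv e.symm, fun x => by rw [hf', e.apply_symm_apply]⟩

theorem ParP_equiv {X' : Type} [AddCommGroup X'] [Fintype X'] [DecidableEq X'] (S : Set ℕ)
    (e : X ≃+ X') (h : ParP X S) : ParP X' S := by
  intro Y _ 𝒴 hPP g hg he
  obtain ⟨f, hf, hf'⟩ := h Y 𝒴 hPP _ (hg.equiv e) (fun x => by rw [map_neg, he])
  refine ⟨fun x => f (e.symm x), hf.equiv e.symm, fun x => ?_⟩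
  have := hf' (e.symm x)
  rw [e.apply_symm_apply] at this
  change g x = f (e.symm x) + 𝒴.ι (f (e.symm (-x)))
  rw [map_neg e.symm]
  exact this

/-- the kernel of an equivariant map -/
def kerCS (𝒴 : CS Y) (𝒵 : CS Z) (π : Y →+ Z) (hφ : ∀ q y, π (𝒴.φ q y) = 𝒵.φ q (π y))
    (hι : ∀ y, π (𝒴.ι y) = 𝒵.ι (π y)) : CS π.ker where
  φ a :=
    { toFun := fun y => ⟨𝒴.φ a y.1, by rw [AddMonoidHom.mem_ker, hφ, y.2, map_zero]⟩
      map_zero' := by ext; simp
      map_add' := fun x y => by ext; simp }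
  ι :=
    { toFun := fun y => ⟨𝒴.ι y.1, by rw [AddMonoidHom.mem_ker, hι, y.2, map_zero]⟩
      map_zero' := by ext; simp
      map_add' := fun x y => by ext; simp }
  comm a b y := by ext; exact 𝒴.comm a b y.1
  ιι y := by ext; exact 𝒴.ιι y.1
  φι a y := by ext; exact 𝒴.φι a y.1

theorem PP_ker (𝒴 : CS Y) (𝒵 : CS Z) (π : Y →+ Z) (hφ : ∀ q y, π (𝒴.φ q y) = 𝒵.φ q (π y))
    (hι : ∀ y, π (𝒴.ι y) = 𝒵.ι (π y)) (hπ : Function.Surjective π) (h1 : PP 𝒴) (h2 : PP 𝒵) :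
    PP (kerCS 𝒴 𝒵 π hφ hι) := by
  constructor
  · rintro ⟨y, hy⟩ he
    have he' : 𝒴.ι y = y := congrArg Subtype.val he
    rw [AddMonoidHom.mem_ker] at hy
    obtain ⟨z, hz⟩ := h1.1 y he'
    have h3 : 𝒵.ι (π z) = -π z := by
      have := congrArg π hz
      rw [hy, map_add, hι] at this
      exact (neg_eq_of_add_eq_zero_right this.symm).symm
    obtain ⟨v, hv⟩ := h2.2 _ h3
    obtain ⟨w, rfl⟩ := hπ v
    refine ⟨⟨z - (w - 𝒴.ι w), ?_⟩, ?_⟩
    · rw [AddMonoidHom.mem_ker, map_sub, map_sub, hι, ← hv, sub_self]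
    · ext
      change y = z - (w - 𝒴.ι w) + 𝒴.ι (z - (w - 𝒴.ι w))
      rw [map_sub, map_sub, 𝒴.ιι]
      nth_rewrite 1 [hz]
      abel
  · rintro ⟨y, hy⟩ he
    have he' : 𝒴.ι y = -y := congrArg Subtype.val he
    rw [AddMonoidHom.mem_ker] at hy
    obtain ⟨z, hz⟩ := h1.2 y he'
    have h3 : 𝒵.ι (π z) = π z := by
      have := congrArg π hz
      rw [hy, map_sub, hι] at this
      exact (sub_eq_zero.1 this.symm).symm
    obtain ⟨v, hv⟩ := h2.1 _ h3
    obtain ⟨w, rfl⟩ := hπ v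
    refine ⟨⟨z - (w + 𝒴.ι w), ?_⟩, ?_⟩
    · rw [AddMonoidHom.mem_ker, map_sub, map_add, hι, ← hv, sub_self]
    · ext
      change y = z - (w + 𝒴.ι w) - 𝒴.ι (z - (w + 𝒴.ι w))
      rw [map_sub, map_add, 𝒴.ιι]
      nth_rewrite 1 [hz]
      abel

/-- forget the involution -/
def forget (𝒴 : CS Y) : CS Y where
  φ := 𝒴.φ
  ι := AddMonoidHom.id Y
  comm := 𝒴.comm
  ιι _ := rfl
  φι _ _ := rfl

end gen

section step

variable (q j : ℕ) [NeZero q] {X Y : Type} [AddCommGroup X] [Fintype X] [DecidableEq X]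
  [AddCommGroup Y]

open Classical in
/-- gluing -/
noncomputable def glue (hq : q.Prime) (g0 : ZMod (q ^ j) × X → Y)
    (g1 : X → ((ZMod (q ^ (j + 1)))ˣ → Y)) : ZMod (q ^ (j + 1)) × X → Y :=
  fun p => if h : IsUnit p.1 then g1 p.2 h.unit else g0 ((exists_eps q j hq p.1 h).choose, p.2)

theorem old_glue (hq : q.Prime) (g0 : ZMod (q ^ j) × X → Y)
    (g1 : X → ((ZMod (q ^ (j + 1)))ˣ → Y)) : old q j (glue q j hq g0 g1) = g0 := by
  funext p
  obtain ⟨d, x⟩ := p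
  unfold old glue
  have h := eps_not_unit q j hq d
  simp only
  rw [dif_neg h]
  congr 2
  exact eps_inj q j hq.pos (exists_eps q j hq (eps q j d) h).choose_spec

theorem new_glue (hq : q.Prime) (g0 : ZMod (q ^ j) × X → Y)
    (g1 : X → ((ZMod (q ^ (j + 1)))ˣ → Y)) : new q j (glue q j hq g0 g1) = g1 := by
  funext x u
  unfold new glue
  simp only
  rw [dif_pos u.isUnit]
  congr 1
  exact Units.ext rfl

theorem ext_old_new (hq : q.Prime) (g g' : ZMod (q ^ (j + 1)) × X → Y)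
    (h0 : old q j g = old q j g') (h1 : new q j g = new q j g') : g = g' := by
  funext p
  obtain ⟨c, x⟩ := p
  by_cases hc : IsUnit c
  · obtain ⟨u, rfl⟩ := hc
    exact congrFun (congrFun h1 x) u
  · obtain ⟨d, rfl⟩ := exists_eps q j hq c hc
    exact congrFun h0 (d, x)

theorem Sop_dist (hq : q.Prime) (𝒴 : CS Y) (S : Set ℕ) (hS : ∀ a ∈ S, a.Coprime q)
    (hX : ∀ x x' : X, q • x = q • x' → x = x') (g : ZMod (q ^ j) × X → Y)
    (h : IsDist 𝒴 (SS S q j) g) : IsDist (FunCS (q ^ j) 𝒴) S (Sop q j 𝒴 g) := by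
  intro a ha x
  have hco : a.Coprime (q ^ j) := Nat.Coprime.pow_right _ (hS a ha)
  have hbij : Function.Bijective (fun x : X => q • x) :=
    Finite.injective_iff_bijective.1 (fun x x' h => hX x x' h)
  have h1 : ∀ (d : ZMod (q ^ j)) (x : X),
      ∑ y ∈ univ.filter (fun y : X => a • y = a • x), g (d, y) = 𝒴.φ a (g (a • d, a • x)) := by
    intro d x
    have := h a (Or.inl ha) (d, x)
    rw [prodsum1 a (inj_of_coprime q j a (hS a ha))] at this
    exact this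
  have h2 : ∀ (d : ZMod (q ^ j)) (x : X),
      ∑ y ∈ univ.filter (fun y : X => a • y = a • x), g (d, q • y) =
        𝒴.φ a (g (a • d, q • a • x)) := by
    intro d x
    have h3 := h1 d (q • x)
    rw [smul_comm a q x] at h3
    rw [← h3]
    refine Finset.sum_bij (fun y _ => q • y) ?_ ?_ ?_ ?_
    · intro y hy
      rw [Finset.mem_filter] at hy ⊢
      exact ⟨mem_univ _, by rw [smul_comm, hy.2]⟩
    · intro y _ y' _ hyy
      exact hX _ _ hyy
    · intro z hz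
      obtain ⟨y, rfl⟩ := hbij.2 z
      rw [Finset.mem_filter] at hz
      refine ⟨y, ?_, rfl⟩
      rw [Finset.mem_filter]
      refine ⟨mem_univ _, hX _ _ ?_⟩
      rw [smul_comm]
      exact hz.2
    · intro y _; rfl
  funext d
  rw [Finset.sum_apply]
  change ∑ y ∈ univ.filter (fun y : X => a • y = a • x),
      (𝒴.φ q (g ((d : ZMod (q ^ j)), q • y)) - (if j = 0 then g ((d : ZMod (q ^ j)), y) else 0)) =
    𝒴.φ a (𝒴.φ q (g (((υ (q ^ j) a * d : (ZMod (q ^ j))ˣ) : ZMod (q ^ j)), q • a • x)) -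
      (if j = 0 then g (((υ (q ^ j) a * d : (ZMod (q ^ j))ˣ) : ZMod (q ^ j)), a • x) else 0))
  have hυ : ((υ (q ^ j) a * d : (ZMod (q ^ j))ˣ) : ZMod (q ^ j)) = a • (d : ZMod (q ^ j)) := by
    rw [Units.val_mul, υ_val _ _ hco, nsmul_eq_mul]
  rw [hυ, Finset.sum_sub_distrib, ← map_sum, h2, map_sub, 𝒴.comm q a]
  congr 1
  split_ifs
  · rw [h1]
  · rw [Finset.sum_const_zero, map_zero]

theorem lift_step (hq : q.Prime) (S : Set ℕ) (hS : ∀ a ∈ S, a.Coprime q)
    (hX : ∀ x x' : X, q • x = q • x' → x = x') (L : LiftP X S)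
    (Lj : LiftP (ZMod (q ^ j) × X) (SS S q j)) :
    LiftP (ZMod (q ^ (j + 1)) × X) (SS S q (j + 1)) := by
  intro Y Z _ _ 𝒴 𝒵 π hπ hφ h hh
  obtain ⟨h0, h1, h2⟩ := (dist_iff q j hq 𝒵 S hS hX h).1 hh
  obtain ⟨g0, hg0, hg0'⟩ := Lj Y Z 𝒴 𝒵 π hπ hφ (old q j h) h0
  obtain ⟨G, hG, hG'⟩ := L _ _ (FunCS (q ^ (j + 1)) 𝒴) (FunCS (q ^ (j + 1)) 𝒵)
    (AddMonoidHom.compLeft π _) (fun w => by
      choose s hs using hπ
      exact ⟨fun u => s (w u), funext fun u => hs (w u)⟩)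
    (fun a y => by
      funext u
      exact hφ a _) (new q j h) h1
  -- the defect
  have hSop := Sop_dist q j hq 𝒴 S hS hX g0 hg0
  have hdef : IsDist (FunCS (q ^ j) 𝒴) S
      (fun x => Sop q j 𝒴 g0 x - tau q j Y (G x)) :=
    hSop.sub (hG.map (tau q j Y) (fun a y => tau_φ q j hq 𝒴 a y))
  have hker : ∀ x d, Sop q j 𝒴 g0 x d - tau q j Y (G x) d ∈ π.ker := by
    intro x d
    rw [AddMonoidHom.mem_ker, map_sub, sub_eq_zero]
    have h3 := congrFun (h2 x) d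
    have h4 : π (Sop q j 𝒴 g0 x d) = Sop q j 𝒵 (old q j h) x d := by
      unfold Sop
      rw [map_sub, hφ, hg0']
      congr 1
      split_ifs
      · exact hg0' _
      · exact map_zero π
    have h5 : π (tau q j Y (G x) d) = tau q j Z (new q j h x) d := by
      rw [tau_apply, tau_apply, map_sum]
      refine Finset.sum_congr rfl fun c _ => ?_
      exact congrFun (hG' x) c
    rw [h4, h5, h3]
  set K := kerCS (forget 𝒴) (forget 𝒵) π hφ (fun _ => rfl) with hK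
  set r : X → ((ZMod (q ^ j))ˣ → π.ker) :=
    fun x d => ⟨Sop q j 𝒴 g0 x d - tau q j Y (G x) d, hker x d⟩ with hr
  have hrd : IsDist (FunCS (q ^ j) K) S r := by
    refine IsDist.of_map (𝒵 := FunCS (q ^ j) 𝒴) (AddMonoidHom.compLeft π.ker.subtype _) ?_ ?_ ?_
    · intro y y' hyy
      funext d
      exact Subtype.ext (congrFun hyy d)
    · intro a y
      funext d
      rfl
    · exact hdef
  obtain ⟨w, hw, hw'⟩ := L _ _ (FunCS (q ^ (j + 1)) K) (FunCS (q ^ j) K) (tau q j π.ker)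
    (tau_surj q j _) (fun a y => tau_φ q j hq K a y) r hrd
  have hwd : IsDist (FunCS (q ^ (j + 1)) 𝒴) S (fun x u => (w x u : Y)) := by
    refine IsDist.map (𝒵 := FunCS (q ^ (j + 1)) 𝒴) hw
      (AddMonoidHom.compLeft π.ker.subtype _) ?_
    intro a y
    funext d
    rfl
  set g1 : X → ((ZMod (q ^ (j + 1)))ˣ → Y) := fun x u => G x u + (w x u : Y) with hg1
  have hg1d : IsDist (FunCS (q ^ (j + 1)) 𝒴) S g1 := hG.add hwd
  refine ⟨glue q j hq g0 g1, ?_, ?_⟩
  · rw [dist_iff q j hq 𝒴 S hS hX]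
    rw [old_glue, new_glue]
    refine ⟨hg0, hg1d, fun x => ?_⟩
    funext d
    have h3 : ((tau q j π.ker (w x) d : π.ker) : Y) = Sop q j 𝒴 g0 x d - tau q j Y (G x) d := by
      rw [hw']
    have h4 : tau q j Y (g1 x) d = tau q j Y (G x) d + ((tau q j π.ker (w x) d : π.ker) : Y) := by
      rw [tau_apply, tau_apply, tau_apply, hg1, Finset.sum_add_distrib]
      congr 1
      rw [AddSubgroup.val_finsetSum]
    rw [h4, h3]
    abel
  · have h3 : (fun p => π (glue q j hq g0 g1 p)) = h := by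
      apply ext_old_new q j hq
      · funext p
        change π (old q j (glue q j hq g0 g1) p) = _
        rw [old_glue]
        exact hg0' p
      · funext x u
        change π (new q j (glue q j hq g0 g1) x u) = _
        rw [new_glue]
        change π (G x u + (w x u : Y)) = _
        rw [map_add, (w x u).2, add_zero]
        exact congrFun (hG' x) u
    exact fun x => congrFun h3 x

theorem par_step (hq : q.Prime) (S : Set ℕ) (hS : ∀ a ∈ S, a.Coprime q)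
    (hX : ∀ x x' : X, q • x = q • x' → x = x') (L : LiftP X S) (P : ParP X S)
    (Pj : ParP (ZMod (q ^ j) × X) (SS S q j)) :
    ParP (ZMod (q ^ (j + 1)) × X) (SS S q (j + 1)) := by
  intro Y _ 𝒴 hPP g hg he
  obtain ⟨h0, h1, h2⟩ := (dist_iff q j hq 𝒴 S hS hX g).1 hg
  obtain ⟨z0, hz0, hz0'⟩ := Pj Y 𝒴 hPP (old q j g) h0 (by
    rintro ⟨d, x⟩
    change 𝒴.ι (g (eps q j (-d), -x)) = g (eps q j d, x)
    rw [map_neg]
    exact he (eps q j d, x))
  obtain ⟨z1, hz1, hz1'⟩ := L _ _ (FunCS (q ^ (j + 1)) 𝒴) (FunCS (q ^ j) 𝒴) (tau q j Y)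
    (tau_surj q j _) (fun a y => tau_φ q j hq 𝒴 a y) _ (Sop_dist q j hq 𝒴 S hS hX z0 hz0)
  set zh := glue q j hq z0 z1 with hzh
  have hzhd : IsDist 𝒴 (SS S q (j + 1)) zh := by
    rw [dist_iff q j hq 𝒴 S hS hX, hzh, old_glue, new_glue]
    exact ⟨hz0, hz1, hz1'⟩
  set r : ZMod (q ^ (j + 1)) × X → Y := fun p => g p - (zh p + 𝒴.ι (zh (-p))) with hr
  have hrd : IsDist 𝒴 (SS S q (j + 1)) r := hg.sub (hzhd.add hzhd.iota)
  have hre : ∀ p, 𝒴.ι (r (-p)) = r p := by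
    intro p
    simp only [hr]
    rw [map_sub, map_add, he, neg_neg, 𝒴.ιι, add_comm (𝒴.ι (zh (-p)))]
  have hold : old q j r = fun _ => 0 := by
    funext p
    obtain ⟨d, x⟩ := p
    change g (eps q j d, x) - (zh (eps q j d, x) + 𝒴.ι (zh (-(eps q j d), -x))) = 0
    rw [← map_neg]
    change old q j g (d, x) - (old q j zh (d, x) + 𝒴.ι (old q j zh (-d, -x))) = 0
    rw [hzh, old_glue, hz0' (d, x)]
    exact sub_self _
  obtain ⟨-, hr1, hr2⟩ := (dist_iff q j hq 𝒴 S hS hX r).1 hrd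
  have hker : ∀ x, new q j r x ∈ (tau q j Y).ker := by
    intro x
    rw [AddMonoidHom.mem_ker, hr2, hold]
    funext d
    unfold Sop
    simp
  set K := kerCS (FunCS (q ^ (j + 1)) 𝒴) (FunCS (q ^ j) 𝒴) (tau q j Y)
    (fun a y => tau_φ q j hq 𝒴 a y) (fun y => tau_ι q j 𝒴 y) with hK
  have hPK : PP K := PP_ker _ _ _ _ _ (tau_surj q j _) (PP_fun _ 𝒴 hPP) (PP_fun _ 𝒴 hPP)
  obtain ⟨w, hw, hw'⟩ := P _ K hPK (fun x => ⟨new q j r x, hker x⟩) (by
    refine IsDist.of_map (𝒵 := FunCS (q ^ (j + 1)) 𝒴) (tau q j Y).ker.subtype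
      Subtype.val_injective (fun a y => rfl) ?_
    exact hr1) (by
    intro x
    apply Subtype.ext
    funext u
    change 𝒴.ι (r (((-u : (ZMod (q ^ (j + 1)))ˣ) : ZMod (q ^ (j + 1))), -x)) = r ((u : ZMod _), x)
    rw [Units.val_neg]
    exact hre ((u : ZMod _), x))
  set w1 : X → ((ZMod (q ^ (j + 1)))ˣ → Y) := fun x => (w x).1 with hw1
  have hw1d : IsDist (FunCS (q ^ (j + 1)) 𝒴) S w1 :=
    hw.map (𝒵 := FunCS (q ^ (j + 1)) 𝒴) (tau q j Y).ker.subtype (fun a y => rfl)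
  set wh := glue q j hq (fun _ => 0) w1 with hwh
  have hwhd : IsDist 𝒴 (SS S q (j + 1)) wh := by
    rw [dist_iff q j hq 𝒴 S hS hX, hwh, old_glue, new_glue]
    refine ⟨IsDist.zero, hw1d, fun x => ?_⟩
    have h3 : tau q j Y (w x).1 = 0 := (w x).2
    rw [hw1]
    simp only
    rw [h3]
    funext d
    unfold Sop
    simp
  refine ⟨fun p => zh p + wh p, hzhd.add hwhd, ?_⟩
  have h3 : g = fun p => (zh p + wh p) + 𝒴.ι (zh (-p) + wh (-p)) := by
    apply ext_old_new q j hq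
    · funext p
      obtain ⟨d, x⟩ := p
      change old q j g (d, x) = (zh (eps q j d, x) + wh (eps q j d, x)) +
        𝒴.ι (zh (-(eps q j d), -x) + wh (-(eps q j d), -x))
      rw [← map_neg]
      change old q j g (d, x) = (old q j zh (d, x) + old q j wh (d, x)) +
        𝒴.ι (old q j zh (-d, -x) + old q j wh (-d, -x))
      rw [hzh, hwh, old_glue, old_glue, add_zero, add_zero]
      exact hz0' (d, x)
    · funext x u
      have h4 : r ((u : ZMod (q ^ (j + 1))), x) = w1 x u + 𝒴.ι (w1 (-x) (-u)) :=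
        congrFun (congrArg Subtype.val (hw' x)) u
      have h5 : ∀ (x : X) (u : (ZMod (q ^ (j + 1)))ˣ), w1 x u = wh ((u : ZMod _), x) := by
        intro x u
        have := congrFun (congrFun (new_glue q j hq (fun _ => 0) w1) x) u
        exact this.symm
      rw [h5, h5, Units.val_neg] at h4
      change g ((u : ZMod _), x) = (zh ((u : ZMod _), x) + wh ((u : ZMod _), x)) +
        𝒴.ι (zh (-(u : ZMod _), -x) + wh (-(u : ZMod _), -x))
      have h6 : r ((u : ZMod (q ^ (j + 1))), x) = g ((u : ZMod _), x) -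
        (zh ((u : ZMod _), x) + 𝒴.ι (zh (-(u : ZMod _), -x))) := rfl
      rw [h6, sub_eq_iff_eq_add] at h4
      rw [h4, map_add]
      abel
  exact fun p => congrFun h3 p

/-- all powers of `q` -/
theorem tower (hq : q.Prime) (S : Set ℕ) (hS : ∀ a ∈ S, a.Coprime q)
    (hX : ∀ x x' : X, q • x = q • x' → x = x') (L : LiftP X S) (P : ParP X S) (j : ℕ) :
    LiftP (ZMod (q ^ j) × X) (SS S q j) ∧ ParP (ZMod (q ^ j) × X) (SS S q j) := by
  induction j with
  | zero =>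
    have h1 : SS S q 0 = S := by
      ext a
      simp [SS]
    have hu : Unique (ZMod (q ^ 0)) := by rw [pow_zero]; infer_instance
    rw [h1]
    let e : X ≃+ ZMod (q ^ 0) × X := (AddEquiv.uniqueProd (M := X) (N := ZMod (q ^ 0))).symm
    exact ⟨LiftP_equiv S e L, ParP_equiv S e P⟩
  | succ j ih =>
    exact ⟨lift_step q j hq S hS hX L ih.1, par_step q j hq S hS hX L P ih.2⟩

end step

theorem base_case (n : ℕ) [NeZero n] (h1 : n = 1) :
    LiftP (ZMod n) {q | q.Prime ∧ q ∣ n} ∧ ParP (ZMod n) {q | q.Prime ∧ q ∣ n} := by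
  subst h1
  have hS : ∀ q, ¬ (q.Prime ∧ q ∣ 1) := by
    rintro q ⟨hq, h⟩
    exact hq.one_lt.ne' (Nat.dvd_one.1 h)
  constructor
  · intro Y Z _ _ 𝒴 𝒵 π hπ hφ g hg
    choose s hs using hπ
    exact ⟨fun x => s (g x), fun q hq => absurd hq (hS q), fun x => hs _⟩
  · intro Y _ 𝒴 hPP g hg he
    have h2 := he 0
    rw [neg_zero] at h2
    obtain ⟨z, hz⟩ := hPP.1 _ h2
    refine ⟨fun _ => z, fun q hq => absurd hq (hS q), fun x => ?_⟩
    rw [Subsingleton.elim x 0]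
    exact hz

theorem lift_par (n : ℕ) : ∀ h : NeZero n,
    LiftP (ZMod n) {q | q.Prime ∧ q ∣ n} ∧ ParP (ZMod n) {q | q.Prime ∧ q ∣ n} := by
  induction n using Nat.recOnPrimePow with
  | zero => intro h; exact absurd rfl h.out
  | one => intro h; exact base_case 1 rfl
  | prime_pow_mul a p k hp hpa hk ih =>
    intro h
    have hne : p ^ k * a ≠ 0 := h.out
    have ha0 : NeZero a := ⟨fun h0 => hne (by rw [h0, mul_zero])⟩
    have hp0 : NeZero p := ⟨hp.ne_zero⟩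
    obtain ⟨L, P⟩ := ih ha0
    have hpa' : p.Coprime a := hp.coprime_iff_not_dvd.2 hpa
    have h1 := tower p hp {q | q.Prime ∧ q ∣ a} (by
      rintro b ⟨hb, hba⟩
      rw [Nat.coprime_comm, hp.coprime_iff_not_dvd]
      intro hpb
      rw [(Nat.prime_dvd_prime_iff_eq hp hb).1 hpb] at hpa
      exact hpa hba) (X := ZMod a) (by
      intro x x' hx
      rw [nsmul_eq_mul, nsmul_eq_mul] at hx
      exact ((ZMod.isUnit_iff_coprime p a).2 hpa').mul_left_cancel hx) L P k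
    have hSS : SS {q | q.Prime ∧ q ∣ a} p k = {q | q.Prime ∧ q ∣ p ^ k * a} := by
      ext b
      simp only [SS, Set.mem_ofPred_eq]
      constructor
      · rintro (⟨hb, hba⟩ | ⟨rfl, -⟩)
        · exact ⟨hb, hba.mul_left _⟩
        · exact ⟨hp, (dvd_pow_self b hk.ne').mul_right _⟩
      · rintro ⟨hb, hba⟩
        rcases (Nat.Prime.dvd_mul hb).1 hba with h2 | h2
        · right
          exact ⟨(Nat.prime_dvd_prime_iff_eq hb hp).1 (hb.dvd_of_dvd_pow h2), hk⟩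
        · left
          exact ⟨hb, h2⟩
    rw [hSS] at h1
    let e : ZMod (p ^ k) × ZMod a ≃+ ZMod (p ^ k * a) :=
      (ZMod.chineseRemainder (Nat.Coprime.pow_left k hpa')).symm.toAddEquiv
    exact ⟨LiftP_equiv _ e h1.1, ParP_equiv _ e h1.2⟩

theorem liftP_zmod (n : ℕ) [h : NeZero n] : LiftP (ZMod n) {q | q.Prime ∧ q ∣ n} :=
  (lift_par n h).1

theorem parP_zmod (n : ℕ) [h : NeZero n] : ParP (ZMod n) {q | q.Prime ∧ q ∣ n} :=
  (lift_par n h).2

end Pool.Agent.helper34.EL
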