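import Pool.Agent.helper34.XL.COR

/-!
# xl:CO2 — every odd torsion-valued distribution kills the relation (large exact `p`-order)
-/

set_option autoImplicit false

namespace Pool.Agent.helper34.EL

open Finset

/-- distribution relation in Chinese remainder coordinates -/
theorem CO2_coord {A : Type} [AddCommMonoid A] (n P n' : ℕ) [NeZero n] [NeZero n'] (hn : n = P * n')
    (hc : P.Coprime n') (g : ZMod n → A) (q : ℕ) (hq : q ∣ n') (hg : DistAt n q g)
    (x : ZMod n') (b : (ZMod P)ˣ) :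
    ∑ y ∈ univ.filter (fun y : ZMod n' => q • y = q • x),
      g ((CRT_iso n P n' hn hc).symm ((b : ZMod P), y)) =
      g ((CRT_iso n P n' hn hc).symm (((υ P q * b : (ZMod P)ˣ) : ZMod P), q • x)) := by
  classical
  set c := CRT_iso n P n' hn hc with hcd
  have hqP : q.Coprime P := (Nat.Coprime.coprime_dvd_right hq hc).symm
  have hυ : ((υ P q : (ZMod P)ˣ) : ZMod P) = (q : ZMod P) := by
    unfold υ
    rw [dif_pos hqP, ZMod.coe_unitOfCoprime]
  have hqu : IsUnit (q : ZMod P) := by rw [← hυ]; exact (υ P q).isUnit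
  have h1 := hg (c.symm ((b : ZMod P), x))
  have h2 : (q : ZMod n) * c.symm ((b : ZMod P), x) =
      c.symm (((υ P q * b : (ZMod P)ˣ) : ZMod P), q • x) := by
    apply c.injective
    rw [map_mul, map_natCast]
    simp only [RingEquiv.apply_symm_apply, Units.val_mul, hυ, nsmul_eq_mul]
    exact Prod.ext rfl rfl
  rw [← h2, ← h1]
  have hfib : ∀ y : ZMod n, (q : ZMod n) * y = q * c.symm ((b : ZMod P), x) ↔
      (c y).1 = b ∧ q • (c y).2 = q • x := by
    intro y
    rw [← c.injective.eq_iff, map_mul, map_mul, map_natCast, Prod.ext_iff]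
    simp only [Prod.fst_mul, Prod.snd_mul, Prod.fst_natCast, Prod.snd_natCast, nsmul_eq_mul,
      RingEquiv.apply_symm_apply]
    rw [hqu.mul_right_inj]
  symm
  apply Finset.sum_bij (fun y _ => (c y).2)
  · intro y hy
    rw [mem_filter] at hy ⊢
    exact ⟨mem_univ _, ((hfib y).1 hy.2).2⟩
  · intro y hy z hz hyz
    rw [mem_filter] at hy hz
    apply c.injective
    apply Prod.ext
    · rw [((hfib y).1 hy.2).1, ((hfib z).1 hz.2).1]
    · exact hyz
  · intro w hw
    rw [mem_filter] at hw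
    refine ⟨c.symm ((b : ZMod P), w), ?_, ?_⟩
    · rw [mem_filter, hfib]
      simp only [RingEquiv.apply_symm_apply]
      exact ⟨mem_univ _, trivial, hw.2⟩
    · simp only [RingEquiv.apply_symm_apply]
  · intro y hy
    rw [mem_filter] at hy
    congr 1
    rw [RingEquiv.eq_symm_apply]
    exact Prod.ext ((hfib y).1 hy.2).1 rfl

/-- the rational version -/
theorem CO2_rat (n p f n' : ℕ) [NeZero n] [NeZero n'] (hp : p.Prime) (hf : 0 < f)
    (hn : n = p ^ f * n') (hpn : ¬ p ∣ n') (γ : ZMod n → ℚ) (hodd : ∀ x, γ (-x) = -γ x)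
    (hdist : ∀ q : ℕ, q.Prime → q ∣ n' → DistAt n q γ) {ι : Type} [Fintype ι] (a : ι → ZMod n)
    (ha : Rel n a) (hap : ∀ i, ((n / p : ℕ) : ZMod n) * a i ≠ 0)
    (hk : 6 * Fintype.card ι < p ^ (f - 1) * (p - 1)) : ∑ i, γ (a i) = 0 := by
  classical
  have hc : (p ^ f).Coprime n' := Nat.Coprime.pow_left _ ((Nat.Prime.coprime_iff_not_dvd hp).2 hpn)
  have : NeZero (p ^ f) := ⟨pow_ne_zero _ hp.ne_zero⟩
  set c := CRT_iso n (p ^ f) n' hn hc with hcd
  set Γ : ZMod n' → (ZMod (p ^ f))ˣ → ℚ := fun x b => γ (c.symm ((b : ZMod (p ^ f)), x)) with hΓ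
  have hΓodd : ∀ x b, Γ (-x) (-b) = -Γ x b := by
    intro x b
    simp only [hΓ]
    rw [← hodd, ← map_neg]
    rfl
  have hΓdist : ∀ q : ℕ, q.Prime → q ∣ n' → ∀ x b,
      ∑ y ∈ univ.filter (fun y : ZMod n' => q • y = q • x), Γ y b =
        Γ (q • x) (υ (p ^ f) q * b) := fun q hq1 hq2 x b =>
    CO2_coord n (p ^ f) n' hn hc γ q hq2 (hdist q hq1 hq2) x b
  set E : ZMod n' → ℚ := fun x => ∑ b, Γ x b with hE
  have hEodd : ∀ x, E (-x) = -E x := by
    intro x
    simp only [hE]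
    rw [← Equiv.sum_comp (Equiv.neg (ZMod (p ^ f))ˣ) (fun b => Γ (-x) b), ← Finset.sum_neg_distrib]
    refine Finset.sum_congr rfl fun b _ => ?_
    exact hΓodd x b
  have hEdist' : ∀ q : ℕ, q.Prime → q ∣ n' → ∀ x,
      ∑ y ∈ univ.filter (fun y : ZMod n' => q • y = q • x), E y = E (q • x) := by
    intro q hq1 hq2 x
    simp only [hE]
    rw [Finset.sum_comm, Finset.sum_congr rfl (fun b _ => hΓdist q hq1 hq2 x b)]
    exact Equiv.sum_comp (Equiv.mulLeft (υ (p ^ f) q)) (fun b => Γ (q • x) b)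
  have hEdist : ∀ q : ℕ, q.Prime → q ∣ n' → DistAt n' q E := by
    intro q hq1 hq2 x
    have := hEdist' q hq1 hq2 x
    simp only [nsmul_eq_mul] at this
    exact this
  set φ : ℕ := p ^ (f - 1) * (p - 1) with hφ
  have hcard : Fintype.card (ZMod (p ^ f))ˣ = φ := by
    rw [ZMod.card_units_eq_totient, Nat.totient_prime_pow hp hf]
  have hφ0 : (φ : ℚ) ≠ 0 := by
    have : 0 < φ := lt_of_le_of_lt (Nat.zero_le _) hk
    exact_mod_cast this.ne'
  have h1 := COR_det n p f n' hp hf hn hpn hc (fun x b => (φ : ℚ) * Γ x b - E x)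
    (by
      intro x b
      simp only [hΓodd, hEodd]
      ring)
    (by
      intro q hq1 hq2 x b
      rw [Finset.sum_sub_distrib, ← Finset.mul_sum, hΓdist q hq1 hq2, hEdist' q hq1 hq2])
    (by
      intro x
      rw [Finset.sum_sub_distrib, ← Finset.mul_sum, Finset.sum_const, Finset.card_univ, hcard,
        nsmul_eq_mul]
      simp only [hE]
      ring)
    a ha hap
  have hunit : ∀ i, ∃ b : (ZMod (p ^ f))ˣ, (b : ZMod (p ^ f)) = (c (a i)).1 := by
    intro i
    by_contra h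
    apply hap i
    rw [CRT_supp1 n p f n' hp hf hn hpn hc (a i)]
    rintro ⟨b, hb⟩
    exact h ⟨b, hb⟩
  choose b hb using hunit
  have h2 : ∀ i, CRT_ext n (p ^ f) n' hn hc (fun x b => (φ : ℚ) * Γ x b - E x) (a i) =
      (φ : ℚ) * γ (a i) - E ((a i).cast : ZMod n') := by
    intro i
    rw [CRT_ext_unit n (p ^ f) n' hn hc _ (a i) (b i) (hb i), ← CRT_iso_snd n (p ^ f) n' hn hc]
    congr 2
    simp only [hΓ]
    congr 1
    rw [RingEquiv.symm_apply_eq]
    exact Prod.ext (hb i) rfl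
  have h3 : ∑ i, E ((a i).cast : ZMod n') = 0 :=
    detectA n' E hEodd hEdist (fun i => ((a i).cast : ZMod n'))
      (rel_cast n p f n' hp hf hn hpn a ha hap hk)
  simp only [h2] at h1
  rw [Finset.sum_sub_distrib, h3, sub_zero, ← Finset.mul_sum] at h1
  exact (mul_eq_zero.1 h1).resolve_left hφ0

theorem core (n p f n' : ℕ) [NeZero n] (hp : p.Prime) (hf : 0 < f) (hn : n = p ^ f * n')
    (hpn : ¬ p ∣ n') (ϑ : ZMod n → AddCircle (1 : ℚ)) (hodd : ∀ x, ϑ (-x) = -ϑ x)
    (hdist : ∀ q : ℕ, q.Prime → q ∣ n' → DistAt n q ϑ) {ι : Type} [Fintype ι] (a : ι → ZMod n)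
    (ha : Rel n a) (hap : ∀ i, ((n / p : ℕ) : ZMod n) * a i ≠ 0)
    (hk : 6 * Fintype.card ι < p ^ (f - 1) * (p - 1)) : ∑ i, ϑ (a i) = 0 := by
  classical
  rcases isEmpty_or_nonempty ι with hι | hι
  · simp
  have hn'0 : n' ≠ 0 := by
    rintro rfl
    exact NeZero.ne n (by rw [hn, mul_zero])
  have : NeZero n' := ⟨hn'0⟩
  have hcard : 0 < Fintype.card ι := Fintype.card_pos
  have hpf : 2 < p ^ f := by
    have h1 : p ^ (f - 1) * (p - 1) ≤ p ^ f := by
      obtain ⟨k, rfl⟩ : ∃ k, f = k + 1 := ⟨f - 1, by omega⟩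
      rw [pow_succ]
      exact Nat.mul_le_mul (le_of_eq (by simp)) (Nat.sub_le _ _)
    omega
  obtain ⟨γ, hγ1, hγ2, -, hγ4⟩ := lift_odd n p f n' hp hf hpf hn hpn ϑ hodd hdist
  have h1 := CO2_rat n p f n' hp hf hn hpn γ hγ1 hγ2 a ha hap hk
  have h2 : ∑ i, ϑ (a i) = ((∑ i, γ (a i) : ℚ) : AddCircle (1 : ℚ)) := by
    rw [Finset.sum_congr rfl (fun i _ => (hγ4 (a i) (hap i)).symm)]
    exact (map_sum (QuotientAddGroup.mk' (AddSubgroup.zmultiples (1 : ℚ))) (fun i => γ (a i))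
      univ).symm
  rw [h2, h1, AddCircle.coe_zero]

end Pool.Agent.helper34.EL
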