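import Pool.Agent.helper34.XL.FIN
import Pool.Agent.helper76.LP.Main2

/-!
# Degrees with few small primes
-/

set_option autoImplicit false

namespace Pool.Agent.helper34.EL

open Finset Pool.Agent.helper34.DH Pool.Agent.helper76.FV Pool.Agent.helper76.LP

/-- a prime dividing the level is at most `12 d + 1` -/
theorem prime_le_of_dvd_level (d p : ℕ) (hp : p.Prime) (h : p ∣ level d) : p ≤ 12 * d + 1 := by
  unfold level at h
  rw [hp.prime.dvd_finsetProd_iff] at h
  obtain ⟨q, hq, hpq⟩ := h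
  rw [mem_filter, mem_range] at hq
  have h1 := hp.dvd_of_dvd_pow hpq
  rw [(Nat.prime_dvd_prime_iff_eq hp hq.2).1 h1]
  omega

/-- the reduced element lives in degree `gcd (level d) (lcm 2 m)` -/
theorem red_level (m : ℕ) (hm : 0 < m) (d : ℕ) (a : Fin (2 * d) → ZMod m) (ha : TateM m a) :
    ∃ (N e : ℕ) (z : Fin (2 * e) → ZMod N), 0 < N ∧ N ∣ level d ∧ N ∣ Nat.lcm 2 m ∧ e ≤ d ∧
      TateM N z ∧ pts z ≤ half ::ₘ pts a ∧ StdEquiv (pts a) (pts z) := by
  obtain ⟨e, he, z, hz, hle, hst⟩ := red_fact m hm d a ha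
  have hpos : 0 < level d := level_pos d
  have hT := (isTateChar_one _ hpos e z).1 hz
  have hN : 0 < Nat.gcd (level d) (Nat.lcm 2 m) := Nat.gcd_pos_of_pos_left _ hpos
  have hcard : Multiset.card (pts z) = 2 * e := by
    unfold pts
    rw [Multiset.card_map]
    simp
  have hzero : ∀ {k n : ℕ} (hn : 0 < n) (x : Fin k → ZMod n) (g : QZ), g ∈ pts x → n • g = 0 := by
    intro k n hn x g hg
    obtain ⟨i, -, rfl⟩ := Multiset.mem_map.1 hg
    have hq : (n : ℚ) ≠ 0 := by exact_mod_cast hn.ne'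
    rw [← AddCircle.coe_nsmul, coe_eq_zero_iff, nsmul_eq_mul]
    have h2 : (n : ℚ) * (((x i).val : ℚ) / n) = (((x i).val : ℕ) : ℤ) := by
      push_cast
      field_simp
    rw [h2]; exact Int.fract_intCast _
  have hord : ∀ g ∈ pts z, (Nat.gcd (level d) (Nat.lcm 2 m)) • g = 0 := by
    intro g hg
    rw [← addOrderOf_dvd_iff_nsmul_eq_zero]
    refine Nat.dvd_gcd ?_ ?_
    · rw [addOrderOf_dvd_iff_nsmul_eq_zero]
      exact hzero hpos z g hg
    · have h1 := Multiset.mem_of_le hle hg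
      rw [Multiset.mem_cons] at h1
      rcases h1 with rfl | h1
      · refine dvd_trans ?_ (Nat.dvd_lcm_left 2 m)
        rw [addOrderOf_dvd_iff_nsmul_eq_zero]
        exact two_half
      · refine dvd_trans ?_ (Nat.dvd_lcm_right 2 m)
        rw [addOrderOf_dvd_iff_nsmul_eq_zero]
        exact hzero hm a g h1
  obtain ⟨w, hw⟩ := lift_pts _ hN (pts z) hord (2 * e) hcard
  refine ⟨_, e, w, hN, Nat.gcd_dvd_left _ _, Nat.gcd_dvd_right _ _, he, ?_, ?_, ?_⟩
  · have : NeZero (Nat.gcd (level d) (Nat.lcm 2 m)) := ⟨hN.ne'⟩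
    have hw0 : ∀ i, w i ≠ 0 := by
      intro i hi
      have h1 : ((((w i).val : ℚ) / (Nat.gcd (level d) (Nat.lcm 2 m) : ℕ) : ℚ) : QZ) ∈ pts z := by
        rw [← hw]
        exact Multiset.mem_map.2 ⟨i, Finset.mem_univ i, rfl⟩
      have h2 := pts_ne_zero hpos z hT.1 _ h1
      apply h2
      rw [hi]
      simp
    rw [tateM_iff _ hN]
    refine tate_transfer (frac _ z) _ (fun i => (FZ_ne _ hN w i).2 (hw0 i)) ?_
      ((tateM_iff _ hpos z).1 hT)
    rw [← pts_eq, ← pts_eq, hw, sub_self]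
    exact R.zero_mem
  · rw [hw]; exact hle
  · rw [hw]; exact hst

/-- standard equivalence implies surface equivalence -/
theorem surf_trans {s t : Multiset QZ} (h1 : StdEquiv s t) (h2 : SurfEquiv t 0) :
    SurfEquiv s 0 := by
  rw [surfEquiv_iff] at h2 ⊢
  rw [stdEquiv_iff] at h1
  have h3 := R2.add_mem (CV_R_le h1) h2
  have h4 : helper34.DH.emb s - helper34.DH.emb 0 =
      (helper34.DH.emb s - helper34.DH.emb t) + (helper34.DH.emb t - helper34.DH.emb 0) := by abel
  rw [h4]
  exact h3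

/-- all pairs of elements of `Λ(m)` up to `12 d + 1` are good -/
def GoodUpTo (d m : ℕ) : Prop :=
  ∀ x y, Lam m x → Lam m y → x < y → y ≤ 12 * d + 1 →
    x * y ∈ ({12, 15, 20, 21, 28, 33, 39} : Finset ℕ)

theorem tate_few_small_primes (d m : ℕ) (hm : 0 < m) (hg : GoodUpTo d m)
    {s : ℕ} (π : Fin (2 * d) → Fin s) (a : Fin (2 * d) → ZMod m) :
    IsTateChar m π a ↔ (∀ i, a i ≠ 0) ∧ BlockZero π a ∧ SurfEquiv (pts a) 0 := by
  rw [isTateChar_iff m hm]
  constructor
  · rintro ⟨hb, hT⟩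
    refine ⟨hT.1, hb, ?_⟩
    obtain ⟨N, e, z, hN, hNl, hNm, hed, hz, -, hst⟩ := red_level m hm d a hT
    refine surf_trans hst ?_
    have hgN : GoodPairs N := by
      intro x y hx hy hxy
      have hlam : ∀ w, Lam N w → Lam m w := by
        rintro w ⟨hw1, hw2⟩
        have h1 : w ∣ Nat.lcm 2 m := hw1.trans hNm
        refine ⟨?_, hw2⟩
        rcases hw2 with rfl | ⟨hp, ho⟩
        · -- `4 ∣ lcm 2 m`
          rcases Nat.even_or_odd m with he | ho
          · have : Nat.lcm 2 m = m := Nat.lcm_eq_right (even_iff_two_dvd.1 he)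
            rwa [this] at h1
          · exfalso
            have h2 : Nat.lcm 2 m ∣ 2 * m := Nat.lcm_dvd_mul 2 m
            have h3 : 2 * 2 ∣ 2 * m := h1.trans h2
            have h4 : 2 ∣ m := (Nat.mul_dvd_mul_iff_left (by norm_num)).1 h3
            exact (Nat.not_even_iff_odd.2 ho) (even_iff_two_dvd.2 h4)
        · have h2 : w ∣ 2 * m := h1.trans (Nat.lcm_dvd_mul 2 m)
          rcases (hp.dvd_mul).1 h2 with h3 | h3
          · rw [Nat.prime_dvd_prime_iff_eq hp Nat.prime_two] at h3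
            subst h3
            exact absurd ho (by decide)
          · exact h3
      have hbound : ∀ w, Lam N w → w ≤ 12 * d + 1 := by
        rintro w ⟨hw1, hw2⟩
        rcases hw2 with rfl | ⟨hp, -⟩
        · have h1 : 4 ∣ level d := hw1.trans hNl
          by_contra h2
          have hd0 : d = 0 := by omega
          subst hd0
          have : level 0 = 1 := by
            unfold level
            have h : (range (12 * 0 + 2)).filter Nat.Prime = ∅ := by decide
            rw [h, prod_empty]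
          rw [this] at h1
          exact absurd (Nat.le_of_dvd one_pos h1) (by norm_num)
        · exact prime_le_of_dvd_level d w hp (hw1.trans hNl)
      exact hg x y (hlam x hx) (hlam y hy) hxy (hbound y hy)
    have h1 := (tate_few_primes N hN hgN e (one (2 * e)) z).1
      ((isTateChar_one N hN e z).2 hz)
    exact h1.2.2
  · rintro ⟨h0, hb, hs⟩
    exact ⟨hb, tateM_of_surfEquiv m hm _ a h0 hs⟩

/-- degrees whose prime factors up to `12 d + 1` are few and small -/
theorem tate_smooth_part (d m : ℕ) (hm : 0 < m)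
    (h : (m.primeFactors.filter (· ≤ 12 * d + 1)) ⊆ {2, 3, 5} ∨
      (m.primeFactors.filter (· ≤ 12 * d + 1)) ⊆ {2, 3, 7} ∨
      (¬ 4 ∣ m ∧ (m.primeFactors.filter (· ≤ 12 * d + 1)) ⊆ {2, 3, 11}) ∨
      (¬ 4 ∣ m ∧ (m.primeFactors.filter (· ≤ 12 * d + 1)) ⊆ {2, 3, 13}))
    {s : ℕ} (π : Fin (2 * d) → Fin s) (a : Fin (2 * d) → ZMod m) :
    IsTateChar m π a ↔ (∀ i, a i ≠ 0) ∧ BlockZero π a ∧ SurfEquiv (pts a) 0 := by
  refine tate_few_small_primes d m hm ?_ π a
  intro x y hx hy hxy hy1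
  have key : ∀ (s : Finset ℕ), (m.primeFactors.filter (· ≤ 12 * d + 1)) ⊆ s → ∀ z, Lam m z →
      z ≤ 12 * d + 1 → z = 4 ∨ (z ∈ s ∧ z ≠ 2) := by
    intro s hs z hz hz1
    rcases hz.2 with h1 | h1
    · exact Or.inl h1
    · right
      refine ⟨hs (mem_filter.2 ⟨Nat.mem_primeFactors.2 ⟨h1.1, hz.1, hm.ne'⟩, hz1⟩), ?_⟩
      rintro rfl
      exact absurd h1.2 (by decide)
  have h4 : ¬ 4 ∣ m → ∀ z, Lam m z → z ≠ 4 := by
    rintro h z hz rfl
    exact h hz.1
  rcases h with h | h | ⟨h0, h⟩ | ⟨h0, h⟩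
  · have h1 := key _ h x hx (by omega)
    have h2 := key _ h y hy (by omega)
    simp only [Finset.mem_insert, Finset.mem_singleton] at h1 h2
    have h3 : x = 3 ∨ x = 4 ∨ x = 5 := by omega
    have h5 : y = 3 ∨ y = 4 ∨ y = 5 := by omega
    rcases h3 with rfl | rfl | rfl <;> rcases h5 with rfl | rfl | rfl <;> first | omega | decide
  · have h1 := key _ h x hx (by omega)
    have h2 := key _ h y hy (by omega)
    simp only [Finset.mem_insert, Finset.mem_singleton] at h1 h2
    have h3 : x = 3 ∨ x = 4 ∨ x = 7 := by omega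
    have h5 : y = 3 ∨ y = 4 ∨ y = 7 := by omega
    rcases h3 with rfl | rfl | rfl <;> rcases h5 with rfl | rfl | rfl <;> first | omega | decide
  · have h1 := key _ h x hx (by omega)
    have h2 := key _ h y hy (by omega)
    have h6 := h4 h0 x hx
    have h7 := h4 h0 y hy
    simp only [Finset.mem_insert, Finset.mem_singleton] at h1 h2
    have h3 : x = 3 ∨ x = 11 := by omega
    have h5 : y = 3 ∨ y = 11 := by omega
    rcases h3 with rfl | rfl <;> rcases h5 with rfl | rfl <;> first | omega | decide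
  · have h1 := key _ h x hx (by omega)
    have h2 := key _ h y hy (by omega)
    have h6 := h4 h0 x hx
    have h7 := h4 h0 y hy
    simp only [Finset.mem_insert, Finset.mem_singleton] at h1 h2
    have h3 : x = 3 ∨ x = 13 := by omega
    have h5 : y = 3 ∨ y = 13 := by omega
    rcases h3 with rfl | rfl <;> rcases h5 with rfl | rfl <;> first | omega | decide

end Pool.Agent.helper34.EL
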