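import Pool.Agent.helper17.XL.CRT
import Pool.Agent.helper78.XL.DET
import Pool.Agent.helper96.XL.SAW
import Pool.Agent.helper96.XL.SML

/-!
# xl:COR — the relation descends to the prime-to-`p` level
-/

set_option autoImplicit false

namespace Pool.Agent.helper34.EL

open Finset

theorem COR_ext_neg (n P n' : ℕ) (hn : n = P * n') (hc : P.Coprime n')
    (G : ZMod n' → (ZMod P)ˣ → ℚ) (hodd : ∀ x b, G (-x) (-b) = -G x b) (x : ZMod n) :
    CRT_ext n P n' hn hc G (-x) = -CRT_ext n P n' hn hc G x := by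
  by_cases hu : IsUnit (CRT_iso n P n' hn hc x).1
  · obtain ⟨b, hb⟩ := hu
    rw [CRT_ext_unit n P n' hn hc _ x b hb, CRT_ext_unit n P n' hn hc _ (-x) (-b) (by
      rw [map_neg, Prod.fst_neg, ← hb]; rfl)]
    rw [map_neg, Prod.snd_neg, hodd]
  · rw [CRT_ext_nonunit n P n' hn hc _ x hu, CRT_ext_nonunit n P n' hn hc _ (-x), neg_zero]
    rw [map_neg, Prod.fst_neg]
    intro h
    exact hu ((IsUnit.neg_iff _).1 h)

/-- detection in Chinese remainder coordinates -/
theorem COR_det (n p f n' : ℕ) [NeZero n] [NeZero n'] (hp : p.Prime) (hf : 0 < f)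
    (hn : n = p ^ f * n') (hpn : ¬ p ∣ n') (hc : (p ^ f).Coprime n')
    (Γ : ZMod n' → (ZMod (p ^ f))ˣ → ℚ) (hodd : ∀ x b, Γ (-x) (-b) = -Γ x b)
    (hdist : ∀ q : ℕ, q.Prime → q ∣ n' → ∀ x b,
      ∑ y ∈ univ.filter (fun y : ZMod n' => q • y = q • x), Γ y b = Γ (q • x) (υ (p ^ f) q * b))
    (hsum : ∀ x, haveI : NeZero (p ^ f) := ⟨pow_ne_zero _ hp.ne_zero⟩; ∑ b, Γ x b = 0)
    {ι : Type} [Fintype ι] (a : ι → ZMod n) (ha : Rel n a)
    (hap : ∀ i, ((n / p : ℕ) : ZMod n) * a i ≠ 0) :
    ∑ i, CRT_ext n (p ^ f) n' hn hc Γ (a i) = 0 := by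
  have : NeZero (p ^ f) := ⟨pow_ne_zero _ hp.ne_zero⟩
  refine detectB n p f n' hp hf hn hpn (CRT_ext n (p ^ f) n' hn hc Γ)
    (COR_ext_neg n (p ^ f) n' hn hc Γ hodd) (fun q hq1 hq2 => ?_) (fun x hx => ?_) (fun x => ?_)
    a ha hap
  · exact CRT_dist n (p ^ f) n' hn hc Γ q hq2 (hdist q hq1 hq2)
  · exact CRT_ext_nonunit _ _ _ _ _ _ _ ((CRT_supp1 n p f n' hp hf hn hpn hc x).1 hx)
  · rw [CRT_avg n (p ^ f) n' hn hc Γ x]
    exact hsum _

theorem COR_neg_sum {A : Type} [AddCommMonoid A] (n' q : ℕ) [NeZero n'] (G : ZMod n' → A)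
    (x : ZMod n') :
    ∑ y ∈ univ.filter (fun y : ZMod n' => q • y = q • x), G (-y) =
      ∑ y ∈ univ.filter (fun y : ZMod n' => q • y = q • (-x)), G y := by
  apply Finset.sum_bij (fun y _ => -y)
  · intro y hy
    rw [mem_filter] at hy ⊢
    refine ⟨mem_univ _, ?_⟩
    rw [smul_neg, smul_neg, hy.2]
  · intro y _ z _ hyz
    exact neg_injective hyz
  · intro w hw
    rw [mem_filter] at hw
    refine ⟨-w, ?_, neg_neg w⟩
    rw [mem_filter]
    refine ⟨mem_univ _, ?_⟩
    rw [smul_neg, hw.2, smul_neg, neg_neg]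
  · intro y _
    rfl

/-- the key identity: an integral distribution `e` of level `n'` has sum over the reductions of the
family divisible by `φ(p^f) / 2` -/
theorem COR_div (n p f n' : ℕ) [NeZero n] [NeZero n'] (hp : p.Prime) (hf : 0 < f)
    (hn : n = p ^ f * n') (hpn : ¬ p ∣ n') {ι : Type} [Fintype ι] (a : ι → ZMod n)
    (ha : Rel n a) (hap : ∀ i, ((n / p : ℕ) : ZMod n) * a i ≠ 0)
    (e : ZMod n' → ℤ) (heodd : ∀ x, e (-x) = -e x)
    (he : ∀ q : ℕ, q.Prime → q ∣ n' → DistAt n' q e) :
    ∃ z : ℤ, 2 * ∑ i, e ((a i).cast : ZMod n') = ((p ^ (f - 1) * (p - 1) : ℕ) : ℤ) * z := by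
  classical
  have hc : (p ^ f).Coprime n' := Nat.Coprime.pow_left _ ((Nat.Prime.coprime_iff_not_dvd hp).2 hpn)
  have : NeZero (p ^ f) := ⟨pow_ne_zero _ hp.ne_zero⟩
  obtain ⟨G, hG1, hG2⟩ := liftP_zmod n' ((ZMod (p ^ f))ˣ → ℤ) ℤ (FunCS (p ^ f) (CRT_triv ℤ))
    (CRT_triv ℤ)
    { toFun := fun y => ∑ b, y b
      map_zero' := by simp
      map_add' := fun x y => by simp [Finset.sum_add_distrib] }
    (fun z => ⟨fun b => if b = 1 then z else 0, by simp⟩)
    (fun q y => by
      change ∑ b, y (υ (p ^ f) q * b) = ∑ b, y b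
      exact Fintype.sum_equiv (Equiv.mulLeft (υ (p ^ f) q)) _ _ (fun b => rfl))
    e (fun q hq x => by
      have := he q hq.1 hq.2 x
      simp only [nsmul_eq_mul]
      exact this)
  have hG1' : ∀ q : ℕ, q.Prime → q ∣ n' → ∀ x b,
      ∑ y ∈ univ.filter (fun y : ZMod n' => q • y = q • x), G y b =
        G (q • x) (υ (p ^ f) q * b) := by
    intro q hq1 hq2 x b
    have h1 := congrFun (hG1 q ⟨hq1, hq2⟩ x) b
    rw [Finset.sum_apply] at h1
    exact h1
  have hG2' : ∀ x, ∑ b, G x b = e x := hG2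
  -- the odd part
  set O : ZMod n' → (ZMod (p ^ f))ˣ → ℤ := fun x b => G x b - G (-x) (-b) with hO
  have hOodd : ∀ x b, O (-x) (-b) = -O x b := by
    intro x b
    simp only [hO, neg_neg]
    ring
  have hOdist : ∀ q : ℕ, q.Prime → q ∣ n' → ∀ x b,
      ∑ y ∈ univ.filter (fun y : ZMod n' => q • y = q • x), O y b =
        O (q • x) (υ (p ^ f) q * b) := by
    intro q hq1 hq2 x b
    simp only [hO]
    rw [Finset.sum_sub_distrib, hG1' q hq1 hq2,
      COR_neg_sum n' q (fun y => G y (-b)) x, hG1' q hq1 hq2, smul_neg, mul_neg]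
  have hOsum : ∀ x, ∑ b, O x b = 2 * e x := by
    intro x
    simp only [hO]
    have hs : ∑ b, G (-x) (-b) = ∑ b, G (-x) b :=
      Equiv.sum_comp (Equiv.neg (ZMod (p ^ f))ˣ) (fun b => G (-x) b)
    rw [Finset.sum_sub_distrib, hG2', hs, hG2', heodd]
    ring
  -- the unit parts of the entries
  have hunit : ∀ i, ∃ b : (ZMod (p ^ f))ˣ, (b : ZMod (p ^ f)) = (CRT_iso n (p ^ f) n' hn hc (a i)).1 := by
    intro i
    by_contra h
    apply hap i
    rw [CRT_supp1 n p f n' hp hf hn hpn hc (a i)]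
    rintro ⟨b, hb⟩
    exact h ⟨b, hb⟩
  choose b hb using hunit
  have key : ∀ h : (ZMod (p ^ f))ˣ, ∑ i, O ((a i).cast : ZMod n') (b i) =
      ∑ i, O ((a i).cast : ZMod n') (h * b i) := by
    intro h
    have h1 := COR_det n p f n' hp hf hn hpn hc
      (fun x c => ((O x c : ℤ) : ℚ) - ((O x (h * c) : ℤ) : ℚ))
      (by
        intro x c
        have e1 := hOodd x c
        have e2 := hOodd x (h * c)
        rw [← mul_neg] at e2
        simp only [e1, e2]
        push_cast
        ring)
      (by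
        intro q hq1 hq2 x c
        rw [Finset.sum_sub_distrib, ← Int.cast_sum, ← Int.cast_sum, hOdist q hq1 hq2,
          hOdist q hq1 hq2, mul_left_comm h])
      (by
        intro x
        have hs : ∑ c, ((O x (h * c) : ℤ) : ℚ) = ∑ c, ((O x c : ℤ) : ℚ) :=
          Equiv.sum_comp (Equiv.mulLeft h) (fun c => ((O x c : ℤ) : ℚ))
        rw [Finset.sum_sub_distrib, hs, sub_self])
      a ha hap
    have h2 : ∀ i, CRT_ext n (p ^ f) n' hn hc
        (fun x c => ((O x c : ℤ) : ℚ) - ((O x (h * c) : ℤ) : ℚ)) (a i) =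
        ((O ((a i).cast : ZMod n') (b i) : ℤ) : ℚ) -
          ((O ((a i).cast : ZMod n') (h * b i) : ℤ) : ℚ) := by
      intro i
      rw [CRT_ext_unit n (p ^ f) n' hn hc _ (a i) (b i) (hb i), CRT_iso_snd]
    simp only [h2] at h1
    rw [Finset.sum_sub_distrib, sub_eq_zero] at h1
    exact_mod_cast h1
  refine ⟨∑ i, O ((a i).cast : ZMod n') (b i), ?_⟩
  have hcard : Fintype.card (ZMod (p ^ f))ˣ = p ^ (f - 1) * (p - 1) := by
    rw [ZMod.card_units_eq_totient, Nat.totient_prime_pow hp hf]
  have h3 : ∑ h : (ZMod (p ^ f))ˣ, ∑ i, O ((a i).cast : ZMod n') (h * b i) =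
      2 * ∑ i, e ((a i).cast : ZMod n') := by
    rw [Finset.sum_comm, Finset.mul_sum]
    refine Finset.sum_congr rfl fun i _ => ?_
    have hs : ∑ c, O ((a i).cast : ZMod n') (c * b i) = ∑ c, O ((a i).cast : ZMod n') c :=
      Equiv.sum_comp (Equiv.mulRight (b i)) (fun c => O ((a i).cast : ZMod n') c)
    rw [hs, hOsum]
  rw [← h3, ← Finset.sum_congr rfl (fun h _ => key h), Finset.sum_const, Finset.card_univ, hcard,
    nsmul_eq_mul]

theorem rel_cast (n p f n' : ℕ) [NeZero n] [NeZero n'] (hp : p.Prime) (hf : 0 < f)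
    (hn : n = p ^ f * n') (hpn : ¬ p ∣ n') {ι : Type} [Fintype ι] (a : ι → ZMod n) (ha : Rel n a)
    (hap : ∀ i, ((n / p : ℕ) : ZMod n) * a i ≠ 0)
    (hk : 6 * Fintype.card ι < p ^ (f - 1) * (p - 1)) :
    Rel n' (fun i => ((a i).cast : ZMod n')) := by
  intro t
  set φ : ℕ := p ^ (f - 1) * (p - 1) with hφ
  have hφ0 : (0 : ℚ) < φ := by
    have : 0 < φ := lt_of_le_of_lt (Nat.zero_le _) hk
    exact_mod_cast this
  set H : ℤ → ℚ := fun c => ∑ i, saw n' ((c : ZMod n') * ((t : ZMod n') * ((a i).cast : ZMod n')))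
    with hH
  have h1 : H 1 = ∑ i, saw n' ((t : ZMod n') * ((a i).cast : ZMod n')) := by
    simp [hH]
  rw [← h1]
  have h2 := small_zero n' (Nat.pos_of_ne_zero (NeZero.ne n')) (fun c => 2 * H c / φ)
    (by
      intro c d
      simp only [hH]
      push_cast
      simp)
    (by
      intro c hco hcn
      have hex : ∀ x : ZMod n', ∃ z : ℤ, (z : ℚ) = saw n' ((c : ZMod n') * ((t : ZMod n') * x)) -
          c * saw n' ((t : ZMod n') * x) := by
        intro x
        obtain ⟨z, hz⟩ := saw_int n' c hco hcn ((t : ZMod n') * x)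
        exact ⟨z, hz.symm⟩
      choose e he using hex
      obtain ⟨z, hz⟩ := COR_div n p f n' hp hf hn hpn a ha hap e
        (by
          intro x
          have h3 : ((e (-x) : ℤ) : ℚ) = ((-e x : ℤ) : ℚ) := by
            push_cast
            rw [he, he]
            have e1 : (c : ZMod n') * ((t : ZMod n') * -x) = -((c : ZMod n') * ((t : ZMod n') * x)) := by
              ring
            have e2 : (t : ZMod n') * -x = -((t : ZMod n') * x) := by ring
            rw [e1, e2, saw_neg, saw_neg]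
            ring
          exact_mod_cast h3)
        (by
          intro q hq1 hq2 x
          have h3 : ((∑ y ∈ univ.filter (fun y : ZMod n' => (q : ZMod n') * y = q * x), e y : ℤ) : ℚ)
              = ((e (q * x) : ℤ) : ℚ) := by
            push_cast
            rw [he]
            simp only [he]
            rw [Finset.sum_sub_distrib, ← Finset.mul_sum]
            have hcu : IsUnit (c : ZMod n') := by
              rw [ZMod.coe_int_isUnit_iff_isCoprime]
              exact hcn.symm
            obtain ⟨w, hw⟩ := hcu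
            have hun : ∀ v : (ZMod n')ˣ,
                ∑ y ∈ univ.filter (fun y : ZMod n' => (q : ZMod n') * y = q * x),
                  saw n' ((v : ZMod n') * y) = saw n' ((v : ZMod n') * (q * x)) := by
              intro v
              have h4 := saw_dist n' q hq2 ((v : ZMod n') * x)
              rw [mul_left_comm (v : ZMod n'), ← h4]
              apply Finset.sum_bij (fun y _ => (v : ZMod n') * y)
              · intro y hy
                rw [mem_filter] at hy ⊢
                refine ⟨mem_univ _, ?_⟩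
                rw [mul_left_comm, hy.2, mul_left_comm]
              · intro y _ y' _ hyy
                exact v.isUnit.mul_left_cancel hyy
              · intro y hy
                rw [mem_filter] at hy
                refine ⟨((v⁻¹ : (ZMod n')ˣ) : ZMod n') * y, ?_, ?_⟩
                · rw [mem_filter]
                  refine ⟨mem_univ _, ?_⟩
                  rw [mul_left_comm, hy.2]
                  rw [mul_left_comm (q : ZMod n') (v : ZMod n') x, ← mul_assoc, Units.inv_mul,
                    one_mul]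
                · rw [← mul_assoc, Units.mul_inv, one_mul]
              · intro y _
                rfl
            rw [hun t]
            have h5 := hun (w * t)
            simp only [Units.val_mul, hw, mul_assoc] at h5
            rw [h5]
          exact_mod_cast h3)
      refine ⟨z, ?_⟩
      have h4 : ∑ i, ((e ((a i).cast : ZMod n') : ℤ) : ℚ) = H c - c * H 1 := by
        simp only [he, hH]
        rw [Finset.sum_sub_distrib, ← Finset.mul_sum]
        simp
      have h5 : 2 * (H c - c * H 1) = (φ : ℚ) * z := by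
        rw [← h4]
        exact_mod_cast hz
      field_simp
      linarith)
    (by
      intro c _
      rw [abs_div, abs_mul, abs_of_pos hφ0, abs_of_pos (by norm_num : (0:ℚ) < 2), div_lt_iff₀ hφ0]
      have h3 : |H c| ≤ (Fintype.card ι : ℚ) * (1 / 2) := by
        calc |H c| ≤ ∑ i, |saw n' ((c : ZMod n') * ((t : ZMod n') * ((a i).cast : ZMod n')))| :=
              Finset.abs_sum_le_sum_abs _ _
          _ ≤ ∑ _i : ι, (1 / 2 : ℚ) := Finset.sum_le_sum fun i _ => abs_saw_le n' _
          _ = (Fintype.card ι : ℚ) * (1 / 2) := by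
            rw [Finset.sum_const, Finset.card_univ, nsmul_eq_mul]
      have h4 : (6 : ℚ) * Fintype.card ι < φ := by exact_mod_cast hk
      linarith)
  have h3 : 2 * H 1 / (φ : ℚ) = 0 := h2
  rw [div_eq_zero_iff] at h3
  rcases h3 with h3 | h3
  · linarith
  · exact absurd h3 hφ0.ne'

end Pool.Agent.helper34.EL
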