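import Pool.Agent.helper34.XL.RDG

/-!
# Every Tate character reduces to the explicit level
-/

set_option autoImplicit false

namespace Pool.Agent.helper34.EL

open Finset Pool.Agent.helper34.DH Pool.Agent.helper76.FV

theorem rel_of_tate (m : ℕ) (hm : 0 < m) {k : ℕ} (a : Fin k → ZMod m) (h : TateM m a) :
    Rel m a := by
  intro u
  have : NeZero m := ⟨hm.ne'⟩
  have hmq : (m : ℚ) ≠ 0 := by exact_mod_cast hm.ne'
  have h1 : ∀ i, saw m ((u : ZMod m) * a i) = (((u : ZMod m) * a i).val : ℚ) / m - 1 / 2 := by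
    intro i
    unfold saw
    rw [if_neg]
    intro h0
    exact h.1 i ((u.isUnit.mul_right_eq_zero).1 h0)
  rw [Finset.sum_congr rfl fun i _ => h1 i, Finset.sum_sub_distrib, ← Finset.sum_div,
    Finset.sum_const, Finset.card_univ, Fintype.card_fin, nsmul_eq_mul, sub_eq_zero,
    div_eq_iff hmq]
  have h2 : (2 : ℚ) * ∑ i, (((u : ZMod m) * a i).val : ℚ) = k * m := by
    exact_mod_cast h.2 u
  linarith

/-- reduction from a multiset of points -/
theorem redTo_of_multiset (N : ℕ) (hN : 0 < N) (m : ℕ) (hm : 0 < m) {k : ℕ} (a : Fin k → ZMod m)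
    (hT : TateM m a) (s : Multiset QZ) (e : ℕ) (hc : Multiset.card s = 2 * e)
    (hs0 : ∀ g ∈ s, g ≠ 0) (hsN : ∀ g ∈ s, N • g = 0) (hle : s ≤ half ::ₘ pts a)
    (hmem : emb (pts a) - emb s ∈ R) : RedTo N a e := by
  obtain ⟨z, hz⟩ := lift_pts N hN s hsN (2 * e) hc
  have hz0 : ∀ i, z i ≠ 0 := by
    intro i hi
    have : NeZero N := ⟨hN.ne'⟩
    apply hs0 ((((z i).val : ℚ) / N : ℚ) : QZ)
    · rw [← hz]
      exact Multiset.mem_map.2 ⟨i, Finset.mem_univ i, rfl⟩
    · rw [hi]; simp
  rw [← hz, pts_eq a, pts_eq z] at hmem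
  have h2 := tate_transfer _ _ (fun i => (FZ_ne N hN z i).2 (hz0 i)) hmem
    ((tateM_iff m hm a).1 hT)
  refine ⟨z, (isTateChar_one N hN e z).2 ((tateM_iff N hN z).2 h2), ?_, ?_⟩
  · rw [hz]; exact hle
  · rw [stdEquiv_iff]; exact hmem

theorem two_half : (2 : ℕ) • half = 0 := by
  unfold half
  rw [← AddCircle.coe_nsmul, coe_eq_zero_iff, nsmul_eq_mul]
  norm_num

theorem odd_hh (c c' : ℕ) (h : Even (c + c')) : c • hh + c' • hh = 0 := by
  rw [← add_smul]
  obtain ⟨r, hr⟩ := h
  rw [hr, ← two_mul, mul_comm, mul_smul]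
  have h2 := hh_two
  have h3 : (2 : ℕ) • hh = 0 := by exact_mod_cast h2
  rw [h3, smul_zero]

theorem red_fact (m : ℕ) (hm : 0 < m) (d : ℕ) (a : Fin (2 * d) → ZMod m) (ha : TateM m a) :
    ∃ e ≤ d, RedTo (level d) a e := by
  classical
  have : NeZero m := ⟨hm.ne'⟩
  have hmq : (m : ℚ) ≠ 0 := by exact_mod_cast hm.ne'
  rcases Nat.eq_zero_or_pos d with rfl | hd
  · refine ⟨0, le_rfl, redTo_of_multiset _ (level_pos _) m hm a ha 0 0 rfl
      (by simp) (by simp) (Multiset.zero_le _) ?_⟩
    have : pts a = 0 := by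
      unfold pts
      rw [Multiset.map_eq_zero]
      rfl
    rw [this, sub_self]
    exact R.zero_mem
  obtain ⟨J, hJ, hE⟩ := reduce_level_gen m (level d) (level_good d) a (rel_of_tate m hm a ha)
  set P : Fin (2 * d) → QZ := fun i => ((((a i).val : ℚ) / m : ℚ) : QZ) with hP
  set s : Multiset QZ := J.val.map P + (if Odd J.card then ({half} : Multiset QZ) else 0) with hs
  have hJle : J.card ≤ 2 * d := by
    have := Finset.card_le_univ J
    rwa [Fintype.card_fin] at this
  have hcard : Multiset.card s = J.card + (if Odd J.card then 1 else 0) := by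
    rw [hs, Multiset.card_add, Multiset.card_map]
    congr 1
    split_ifs <;> simp
  have heven : Even (Multiset.card s) := by
    rw [hcard]
    split_ifs with h
    · exact h.add_one
    · rw [add_zero]; exact Nat.not_odd_iff_even.1 h
  obtain ⟨e, he⟩ := heven
  have hed : e ≤ d := by
    rw [hcard] at he
    split_ifs at he with h
    · obtain ⟨r, hr⟩ := h
      omega
    · omega
  have hP0 : ∀ i, P i ≠ 0 := by
    intro i
    exact pts_ne_zero hm a ha.1 (P i) (Multiset.mem_map.2 ⟨i, Finset.mem_univ i, rfl⟩)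
  refine ⟨e, hed, redTo_of_multiset _ (level_pos _) m hm a ha s e (by rw [he]; ring)
    ?_ ?_ ?_ ?_⟩
  · intro g hg
    rw [hs, Multiset.mem_add] at hg
    rcases hg with hg | hg
    · obtain ⟨i, -, rfl⟩ := Multiset.mem_map.1 hg
      exact hP0 i
    · split_ifs at hg
      · rw [Multiset.mem_singleton] at hg
        rw [hg]; exact half_ne_zero
      · simp at hg
  · intro g hg
    rw [hs, Multiset.mem_add] at hg
    rcases hg with hg | hg
    · obtain ⟨i, hi, rfl⟩ := Multiset.mem_map.1 hg
      have h1 := hJ i hi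
      simp only [hP]
      rw [← AddCircle.coe_nsmul, coe_eq_zero_iff, nsmul_eq_mul]
      have h2 : (m : ℕ) ∣ level d * (a i).val := by
        rw [← ZMod.natCast_eq_zero_iff]
        push_cast
        rw [ZMod.natCast_zmod_val]
        exact h1
      obtain ⟨c, hc⟩ := h2
      have h3 : ((level d : ℕ) : ℚ) * (((a i).val : ℚ) / m) = (c : ℤ) := by
        rw [← mul_div_assoc, div_eq_iff hmq]
        have : ((level d * (a i).val : ℕ) : ℚ) = ((m * c : ℕ) : ℚ) := by rw [hc]
        push_cast at this ⊢
        linarith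
      rw [h3]; exact Int.fract_intCast _
    · split_ifs at hg
      · rw [Multiset.mem_singleton] at hg
        rw [hg]
        obtain ⟨c, hc⟩ : 2 ∣ level d := two_dvd_level d hd
        rw [hc, mul_comm, mul_smul, two_half, smul_zero]
      · simp at hg
  · rw [hs, ← Multiset.singleton_add, add_comm ({half} : Multiset QZ)]
    refine add_le_add ?_ ?_
    · exact Multiset.map_le_map (Finset.val_le_iff.2 (Finset.subset_univ J))
    · split_ifs
      · exact le_rfl
      · exact Multiset.zero_le _
  · rw [← mk_eq_zero, map_sub, sub_eq_zero]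
    have h1 : mk (emb (pts a)) = ∑ i, F (((a i).val : ℚ) / m) := by
      rw [pts_eq a, mk_ptsQ _ (by rw [← pts_eq a]; exact pts_ne_zero hm a ha.1)]
      rfl
    have h2 : mk (emb s) = ∑ i ∈ J, F (((a i).val : ℚ) / m) +
        (if Odd J.card then 1 else 0 : ℕ) • hh := by
      rw [hs, map_add, map_add, mk_emb (J.val.map P) (by
        intro g hg
        obtain ⟨i, -, rfl⟩ := Multiset.mem_map.1 hg
        exact hP0 i), Multiset.map_map]
      congr 1
      split_ifs
      · rw [mk_emb _ (by
          intro g hg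
          rw [Multiset.mem_singleton] at hg
          rw [hg]; exact half_ne_zero), Multiset.map_singleton, Multiset.sum_singleton, rho_half,
          one_smul]
      · simp
    have h3 : ∑ i ∈ univ \ J, F (((a i).val : ℚ) / m) + (2 * d - J.card) • hh = 0 := by
      rw [← hE]
      unfold En
      rw [Finset.sum_add_distrib, Finset.sum_const, Finset.card_sdiff_of_subset
        (Finset.subset_univ J), Finset.card_univ, Fintype.card_fin]
    have h4 : (2 * d - J.card) • hh + (if Odd J.card then 1 else 0 : ℕ) • hh = 0 := by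
      apply odd_hh
      split_ifs with h
      · obtain ⟨r, hr⟩ := h
        exact ⟨d - r, by omega⟩
      · rw [Nat.not_odd_iff_even] at h
        obtain ⟨r, hr⟩ := h
        exact ⟨d - r, by omega⟩
    rw [h1, h2, ← Finset.sum_sdiff (Finset.subset_univ J), add_comm]
    congr 1
    rw [eq_comm, ← sub_eq_zero]
    have h5 : (if Odd J.card then 1 else 0 : ℕ) • hh - ∑ i ∈ univ \ J, F (((a i).val : ℚ) / m) =
        ((2 * d - J.card) • hh + (if Odd J.card then 1 else 0 : ℕ) • hh) -
        (∑ i ∈ univ \ J, F (((a i).val : ℚ) / m) + (2 * d - J.card) • hh) := by abel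
    rw [h5, h3, h4, sub_zero]

/-- removing a pair of halves -/
theorem canon (s t : Multiset QZ) (e : ℕ) (hc : Multiset.card s = 2 * e)
    (hle : s ≤ half ::ₘ half ::ₘ t) :
    ∃ (s' : Multiset QZ) (e' : ℕ), e' ≤ e ∧ Multiset.card s' = 2 * e' ∧ s' ≤ half ::ₘ t ∧
      (∀ g ∈ s', g ∈ s) ∧ emb s - emb s' ∈ R := by
  classical
  by_cases h : s.count half ≤ 1 + t.count half
  · refine ⟨s, e, le_rfl, hc, ?_, fun g hg => hg, by rw [sub_self]; exact R.zero_mem⟩
    rw [Multiset.le_iff_count]
    intro g
    by_cases hg : g = half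
    · rw [hg, Multiset.count_cons_self]; omega
    · have := Multiset.le_iff_count.1 hle g
      rw [Multiset.count_cons_of_ne hg, Multiset.count_cons_of_ne hg] at this
      rw [Multiset.count_cons_of_ne hg]
      exact this
  · have h2 : ({half, half} : Multiset QZ) ≤ s := by
      rw [Multiset.le_iff_count]
      intro g
      by_cases hg : g = half
      · rw [hg]
        simp only [Multiset.insert_eq_cons, Multiset.count_cons_self, Multiset.count_singleton_self]
        omega
      · simp only [Multiset.insert_eq_cons]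
        rw [Multiset.count_cons_of_ne hg, Multiset.count_singleton, if_neg hg]
        exact Nat.zero_le _
    obtain ⟨s', rfl⟩ := Multiset.le_iff_exists_add.1 h2
    have hcard : Multiset.card s' + 2 = 2 * e := by
      rw [Multiset.card_add] at hc
      simp only [Multiset.insert_eq_cons, Multiset.card_cons, Multiset.card_singleton] at hc
      omega
    refine ⟨s', e - 1, by omega, by omega, ?_, fun g hg => Multiset.mem_add.2 (Or.inr hg), ?_⟩
    · rw [Multiset.le_iff_count]
      intro g
      have h3 := Multiset.le_iff_count.1 hle g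
      rw [Multiset.count_add] at h3
      by_cases hg : g = half
      · subst hg
        simp only [Multiset.insert_eq_cons, Multiset.count_cons_self,
          Multiset.count_singleton_self] at h3 ⊢
        omega
      · rw [Multiset.count_cons_of_ne hg, Multiset.count_cons_of_ne hg] at h3
        rw [Multiset.count_cons_of_ne hg]
        omega
    · rw [map_add, add_sub_cancel_right]
      have h3 := std_mem (IsStd.pair half half_ne_zero)
      have h4 : -half = half := by
        have := two_half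
        rw [two_smul] at this
        exact neg_eq_of_add_eq_zero_left this
      rw [h4] at h3
      exact h3

/-- transitivity of the reduction -/
theorem redTo_trans (N0 : ℕ) (hN0 : 0 < N0) (m : ℕ) (hm : 0 < m) (d : ℕ) {k : ℕ}
    (a : Fin k → ZMod m) (hT : TateM m a) (e : ℕ) (he : e ≤ d) (h : RedTo N0 a e) :
    ∃ e' ≤ e, RedTo (level d) a e' := by
  obtain ⟨z, hz, hzle, hzs⟩ := h
  have hzT := (isTateChar_one N0 hN0 e z).1 hz
  obtain ⟨e1, he1, z1, hz1, hz1le, hz1s⟩ := red_fact N0 hN0 e z hzT
  have hle : pts z1 ≤ half ::ₘ half ::ₘ pts a :=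
    hz1le.trans (Multiset.cons_le_cons half hzle)
  have hcard : Multiset.card (pts z1) = 2 * e1 := by
    unfold pts
    rw [Multiset.card_map]
    simp
  obtain ⟨s', e', he', hc', hle', hmem', hR⟩ := canon (pts z1) (pts a) e1 hcard hle
  refine ⟨e', he'.trans he1, redTo_of_multiset _ (level_pos _) m hm a hT s' e' hc'
    ?_ ?_ hle' ?_⟩
  · intro g hg
    have hg1 := hmem' g hg
    exact pts_ne_zero (level_pos _) z1 hz1.1 g hg1
  · intro g hg
    have hg1 := hmem' g hg
    obtain ⟨i, -, rfl⟩ := Multiset.mem_map.1 hg1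
    have hpos : 0 < level e := level_pos _
    have h1 : level e ∣ level d := level_dvd (by omega)
    obtain ⟨c, hc⟩ := h1
    have hq : ((level e : ℕ) : ℚ) ≠ 0 := by exact_mod_cast hpos.ne'
    rw [← AddCircle.coe_nsmul, coe_eq_zero_iff, nsmul_eq_mul, hc]
    have h2 : ((level e * c : ℕ) : ℚ) * (((z1 i).val : ℚ) / (level e : ℕ)) =
        ((c * (z1 i).val : ℕ) : ℤ) := by
      push_cast
      field_simp
    rw [h2]; exact Int.fract_intCast _
  · rw [stdEquiv_iff] at hzs hz1s
    have h1 := R.add_mem (R.add_mem hzs hz1s) hR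
    have h2 : emb (pts a) - emb s' = (emb (pts a) - emb (pts z)) + (emb (pts z) - emb (pts z1)) +
        (emb (pts z1) - emb s') := by abel
    rw [h2]; exact h1

/-- bounded level, explicit -/
theorem bounded_level_fact (d : ℕ) {s : ℕ} (π : Fin (2 * d) → Fin s) :
    ∃ C : ℕ, ∀ m : ℕ, 0 < m →
      (∀ a : Fin (2 * d) → ZMod m, IsTateChar m π a ↔
        (∀ i, a i ≠ 0) ∧ BlockZero π a ∧ ∃ e ≤ d, RedTo (level d) a e) ∧
      ∀ e : ℕ, m ^ e * Set.ncard {a : Fin (2 * d) → ZMod m | IsTateChar m π a ∧
        ¬ ∃ e' < e, RedTo (level d) a e'} ≤ C * m ^ d := by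
  obtain ⟨N0, C, hN0, hmain⟩ := bounded_level d π
  refine ⟨C, fun m hm => ⟨fun a => ?_, fun e => ?_⟩⟩
  · constructor
    · intro ha
      have h1 := (isTateChar_iff m hm π a).1 ha
      exact ⟨ha.1, h1.1, red_fact m hm d a h1.2⟩
    · rintro ⟨h0, hb, e, -, z, hz, -, hst⟩
      refine (isTateChar_iff m hm π a).2 ⟨hb, (tateM_iff m hm a).2 ?_⟩
      have hpos : 0 < level d := level_pos _
      rw [stdEquiv_iff, pts_eq, pts_eq] at hst
      have hz' := (tateM_iff _ hpos z).1 ((isTateChar_one _ hpos e z).1 hz)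
      refine tate_transfer _ _ (fun i => (FZ_ne m hm a i).2 (h0 i)) ?_ hz'
      have := R.neg_mem hst
      rwa [neg_sub] at this
  · have : NeZero m := ⟨hm.ne'⟩
    refine le_trans (Nat.mul_le_mul_left _ (Set.ncard_le_ncard ?_ (Set.toFinite _)))
      ((hmain m hm).2 e)
    rintro a ⟨ha, hno⟩
    refine ⟨ha, ?_⟩
    rintro ⟨e', he', hred⟩
    apply hno
    have hT := ((isTateChar_iff m hm π a).1 ha).2
    by_cases hd : e' ≤ d
    · obtain ⟨e1, h1, h2⟩ := redTo_trans N0 hN0 m hm d a hT e' hd hred
      exact ⟨e1, by omega, h2⟩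
    · obtain ⟨e1, h1, h2⟩ := red_fact m hm d a hT
      exact ⟨e1, by omega, h2⟩

end Pool.Agent.helper34.EL
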