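import Pool.Agent.helper34.XL.CMB

/-!
# Reduction of the level with an arbitrary set of additional generators
-/

set_option autoImplicit false

namespace Pool.Agent.helper34.EL

open Finset Pool.Agent.helper34.DH Pool.Agent.helper76.FV Pool.Agent.helper76.LP

/-- equality of multisets up to standard elements and elements of the class `A` -/
def GenEquiv (A : Multiset QZ → Prop) (s t : Multiset QZ) : Prop :=
  ∃ S T : Multiset (Multiset QZ), (∀ u ∈ S, IsStd u ∨ A u) ∧ (∀ u ∈ T, IsStd u ∨ A u) ∧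
    s + S.sum = t + T.sum

theorem genEquiv_surf (s t : Multiset QZ) : GenEquiv IsSurf s t ↔ SurfEquiv s t := Iff.rfl

/-- the subgroup generated by standard elements and elements of `A` -/
noncomputable def RG (A : Multiset QZ → Prop) : AddSubgroup (QZ →₀ ℤ) :=
  AddSubgroup.closure {r | ∃ s, (IsStd s ∨ A s) ∧ r = helper34.DH.emb s}

theorem GEN_mem (A : Multiset QZ → Prop) {s : Multiset QZ} (hs : IsStd s ∨ A s) :
    helper34.DH.emb s ∈ RG A :=
  AddSubgroup.subset_closure ⟨s, hs, rfl⟩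

theorem GEN_mem_RG (A : Multiset QZ → Prop) {r : QZ →₀ ℤ} (h : r ∈ RG A) :
    ∃ S T : Multiset (Multiset QZ),
    (∀ u ∈ S, IsStd u ∨ A u) ∧ (∀ u ∈ T, IsStd u ∨ A u) ∧
    r = helper34.DH.emb S.sum - helper34.DH.emb T.sum := by
  refine AddSubgroup.closure_induction (p := fun r _ => ∃ S T : Multiset (Multiset QZ),
    (∀ u ∈ S, IsStd u ∨ A u) ∧ (∀ u ∈ T, IsStd u ∨ A u) ∧
    r = helper34.DH.emb S.sum - helper34.DH.emb T.sum) ?_ ?_ ?_ ?_ h
  · rintro _ ⟨s, hs, rfl⟩
    exact ⟨{s}, 0, by simpa using hs, by simp, by simp [helper34.DH.emb_zero]⟩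
  · exact ⟨0, 0, by simp, by simp, by simp⟩
  · rintro r r' _ _ ⟨S, T, h1, h2, rfl⟩ ⟨S', T', h3, h4, rfl⟩
    refine ⟨S + S', T + T', ?_, ?_, ?_⟩
    · intro u hu
      rcases Multiset.mem_add.1 hu with h | h
      · exact h1 u h
      · exact h3 u h
    · intro u hu
      rcases Multiset.mem_add.1 hu with h | h
      · exact h2 u h
      · exact h4 u h
    · rw [Multiset.sum_add, Multiset.sum_add, _root_.map_add, _root_.map_add]
      abel
  · rintro r _ ⟨S, T, h1, h2, rfl⟩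
    exact ⟨T, S, h2, h1, by abel⟩

theorem genEquiv_iff (A : Multiset QZ → Prop) (s t : Multiset QZ) :
    GenEquiv A s t ↔ helper34.DH.emb s - helper34.DH.emb t ∈ RG A := by
  constructor
  · rintro ⟨S, T, hS, hT, h⟩
    have h1 : ∀ S : Multiset (Multiset QZ), (∀ u ∈ S, IsStd u ∨ A u) →
        helper34.DH.emb S.sum ∈ RG A := by
      intro S
      induction S using Multiset.induction_on with
      | empty => intro _; simp
      | cons a S ih =>
        intro h
        rw [Multiset.sum_cons, _root_.map_add]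
        exact (RG A).add_mem (GEN_mem A (h a (by simp))) (ih fun u hu => h u (by simp [hu]))
    have h2 := congrArg helper34.DH.emb h
    rw [_root_.map_add, _root_.map_add] at h2
    have h3 : helper34.DH.emb s - helper34.DH.emb t =
        helper34.DH.emb T.sum - helper34.DH.emb S.sum := by
      rw [sub_eq_sub_iff_add_eq_add, h2, add_comm]
    rw [h3]
    exact (RG A).sub_mem (h1 T hT) (h1 S hS)
  · intro h
    obtain ⟨S, T, hS, hT, h1⟩ := GEN_mem_RG A h
    refine ⟨T, S, hT, hS, ?_⟩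
    apply helper34.DH.emb_injective
    rw [_root_.map_add, _root_.map_add, ← sub_eq_zero]
    have : helper34.DH.emb s + helper34.DH.emb T.sum -
        (helper34.DH.emb t + helper34.DH.emb S.sum) =
        (helper34.DH.emb s - helper34.DH.emb t) -
          (helper34.DH.emb S.sum - helper34.DH.emb T.sum) := by
      abel
    rw [this, h1, sub_self]

theorem GEN_R_le (A : Multiset QZ → Prop) {r : QZ →₀ ℤ} (h : r ∈ R) : r ∈ RG A := by
  refine (AddSubgroup.closure_le (K := RG A)).2 ?_ h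
  rintro _ ⟨s, hs, rfl⟩
  exact GEN_mem A (Or.inl hs)

theorem GEN_mono {A B : Multiset QZ → Prop} (h : ∀ u, A u → B u) {s t : Multiset QZ}
    (hst : GenEquiv A s t) : GenEquiv B s t := by
  obtain ⟨S, T, hS, hT, he⟩ := hst
  exact ⟨S, T, fun u hu => (hS u hu).imp_right (h u), fun u hu => (hT u hu).imp_right (h u), he⟩

theorem GEN_trans (A : Multiset QZ → Prop) {s t u : Multiset QZ} (h1 : GenEquiv A s t)
    (h2 : GenEquiv A t u) : GenEquiv A s u := by
  rw [genEquiv_iff] at h1 h2 ⊢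
  have h3 := (RG A).add_mem h1 h2
  rwa [sub_add_sub_cancel] at h3

/-- standard equivalence implies equivalence -/
theorem GEN_std (A : Multiset QZ → Prop) {s t : Multiset QZ} (h1 : StdEquiv s t) :
    GenEquiv A s t := by
  rw [stdEquiv_iff] at h1
  rw [genEquiv_iff]
  exact GEN_R_le A h1

/-- weights vanish on `RG A` if the elements of `A` are Tate multisets -/
theorem GEN_wt (A : Multiset QZ → Prop)
    (hA : ∀ u, A u → ∃ (N k : ℕ) (z : Fin k → ZMod N), 0 < N ∧ TateM N z ∧ u = pts z)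
    (r : QZ →₀ ℤ) (hr : r ∈ RG A) :
    ∃ M : ℕ, 0 < M ∧ ∀ t : ℤ, IsCoprime t (M : ℤ) → wt t r = 0 := by
  refine AddSubgroup.closure_induction (p := fun r _ => ∃ M : ℕ, 0 < M ∧
    ∀ t : ℤ, IsCoprime t (M : ℤ) → wt t r = 0) ?_ ?_ ?_ ?_ hr
  · rintro _ ⟨s, hs | hs, rfl⟩
    · exact wt_R _ (std_mem hs)
    · obtain ⟨N, k, z, hN, hz, rfl⟩ := hA s hs
      rw [tateM_iff N hN] at hz
      refine ⟨∏ i, (frac N z i).den, Finset.prod_pos fun i _ => (frac N z i).den_pos,
        fun t ht => ?_⟩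
      change wt t (helper34.DH.emb (ptsQ (frac N z))) = 0
      rw [wt_ptsQ, hz.2 t, sub_self]
      intro i
      refine ht.of_isCoprime_of_dvd_right (Int.natCast_dvd_natCast.2 ?_)
      exact Finset.dvd_prod_of_mem (fun i => (frac N z i).den) (mem_univ i)
  · exact ⟨1, one_pos, fun t _ => by simp⟩
  · rintro r r' _ _ ⟨M, hM, h⟩ ⟨M', hM', h'⟩
    refine ⟨M * M', Nat.mul_pos hM hM', fun t ht => ?_⟩
    push_cast at ht
    rw [_root_.map_add, h t ht.of_mul_right_left, h' t ht.of_mul_right_right, add_zero]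
  · rintro r _ ⟨M, hM, h⟩
    exact ⟨M, hM, fun t ht => by rw [_root_.map_neg, h t ht, neg_zero]⟩

theorem GEN_tate_transfer (A : Multiset QZ → Prop)
    (hA : ∀ u, A u → ∃ (N k : ℕ) (z : Fin k → ZMod N), 0 < N ∧ TateM N z ∧ u = pts z)
    {l : ℕ} (z : Fin l → ℚ)
    (hz : ∀ i, Int.fract (z i) ≠ 0) (h : helper34.DH.emb (ptsQ z) ∈ RG A) :
    Tate z := by
  refine ⟨hz, fun t ht => ?_⟩
  obtain ⟨M, hM, hMt⟩ := GEN_wt A hA _ h
  set Q : ℕ := ∏ i, (z i).den with hQ
  have hQ0 : 0 < Q := Finset.prod_pos fun i _ => (z i).den_pos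
  have hcop : IsCoprime t (Q : ℤ) := by
    have : (Q : ℤ) = ∏ i, ((z i).den : ℤ) := by simp [Q]
    rw [this]
    exact IsCoprime.prod_right fun i _ => ht i
  obtain ⟨t', ht', hdiv⟩ := exists_lift Q M hQ0 hM t hcop
  have h1 : ∀ i, Int.fract ((t : ℚ) * z i) = Int.fract ((t' : ℚ) * z i) := by
    intro i
    apply FA_fract_congr
    have h2 : ((z i).den : ℤ) ∣ t' - t := (Int.natCast_dvd_natCast.2
      (Finset.dvd_prod_of_mem (fun i => (z i).den) (mem_univ i))).trans hdiv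
    obtain ⟨n, hn⟩ := FA_int_of_dvd (z i) (t' - t) h2
    refine ⟨-n, ?_⟩
    push_cast at hn ⊢
    linarith
  have h3 := hMt t' ht'
  rw [wt_ptsQ] at h3
  rw [Finset.sum_congr rfl fun i _ => h1 i]
  linarith

/-- a multiset that is trivial modulo standard elements and Tate multisets is a Tate multiset -/
theorem tateM_of_genEquiv (A : Multiset QZ → Prop)
    (hA : ∀ u, A u → ∃ (N k : ℕ) (z : Fin k → ZMod N), 0 < N ∧ TateM N z ∧ u = pts z)
    (m : ℕ) (hm : 0 < m) (k : ℕ) (a : Fin k → ZMod m)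
    (h0 : ∀ i, a i ≠ 0) (h : GenEquiv A (pts a) 0) : TateM m a := by
  rw [tateM_iff m hm]
  rw [genEquiv_iff, _root_.map_zero, sub_zero] at h
  exact GEN_tate_transfer A hA _ (fun i => (FZ_ne m hm a i).2 (h0 i)) h

/-- reduction of the degree: only divisors `N` of `level d` and of `lcm 2 m` matter -/
theorem gen_reduce (A : Multiset QZ → Prop) (d m : ℕ) (hm : 0 < m)
    (h : ∀ N : ℕ, 0 < N → N ∣ level d → N ∣ Nat.lcm 2 m → ∀ e ≤ d, ∀ z : Fin (2 * e) → ZMod N,
      TateM N z → GenEquiv A (pts z) 0)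
    (a : Fin (2 * d) → ZMod m) (ha : TateM m a) : GenEquiv A (pts a) 0 := by
  obtain ⟨N, e, z, hN, hNl, hNm, hed, hz, -, hst⟩ := red_level m hm d a ha
  exact GEN_trans A (GEN_std A hst) (h N hN hNl hNm e hed z hz)

/-- block version -/
theorem gen_main (A : Multiset QZ → Prop)
    (hA : ∀ u, A u → ∃ (N k : ℕ) (z : Fin k → ZMod N), 0 < N ∧ TateM N z ∧ u = pts z)
    (d m : ℕ) (hm : 0 < m)
    (h : ∀ N : ℕ, 0 < N → N ∣ level d → N ∣ Nat.lcm 2 m → ∀ e ≤ d, ∀ z : Fin (2 * e) → ZMod N,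
      TateM N z → GenEquiv A (pts z) 0)
    {s : ℕ} (π : Fin (2 * d) → Fin s) (a : Fin (2 * d) → ZMod m) :
    IsTateChar m π a ↔ (∀ i, a i ≠ 0) ∧ BlockZero π a ∧ GenEquiv A (pts a) 0 := by
  rw [isTateChar_iff m hm]
  constructor
  · rintro ⟨hb, hT⟩
    exact ⟨hT.1, hb, gen_reduce A d m hm h a hT⟩
  · rintro ⟨h0, hb, hs⟩
    exact ⟨hb, tateM_of_genEquiv A hA m hm _ a h0 hs⟩

end Pool.Agent.helper34.EL
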