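import Pool.Agent.helper21.XL.FAC

/-!
# The explicit level
-/

set_option autoImplicit false

namespace Pool.Agent.helper34.EL

open Finset

/-- the property of the level used by the reduction of families with `k` entries -/
def GoodLevel (k L : ℕ) : Prop :=
  ∀ p j : ℕ, p.Prime → p ≤ 6 * k + 1 → 0 < j → p ^ (j - 1) * (p - 1) ≤ 6 * k →
    p ^ (j + 3 * k / (p - 1)) ∣ L

/-- the explicit level for `2 d` coordinates: the product over the primes `p ≤ 12 d + 1` of
`p ^ (1 + ⌊log_p (12 d / (p - 1))⌋ + ⌊6 d / (p - 1)⌋)` -/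
def level (d : ℕ) : ℕ :=
  ∏ p ∈ (range (12 * d + 2)).filter Nat.Prime,
    p ^ (1 + Nat.log p (12 * d / (p - 1)) + 6 * d / (p - 1))

theorem level_pos (d : ℕ) : 0 < level d := by
  refine Finset.prod_pos fun p hp => ?_
  rw [mem_filter] at hp
  exact pow_pos hp.2.pos _

theorem level_mem (d p : ℕ) (hp : p.Prime) (h : p ≤ 12 * d + 1) :
    p ^ (1 + Nat.log p (12 * d / (p - 1)) + 6 * d / (p - 1)) ∣ level d := by
  refine Finset.dvd_prod_of_mem
    (fun p : ℕ => p ^ (1 + Nat.log p (12 * d / (p - 1)) + 6 * d / (p - 1))) ?_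
  rw [mem_filter, mem_range]
  exact ⟨by omega, hp⟩

theorem two_dvd_level (d : ℕ) (hd : 0 < d) : 2 ∣ level d :=
  (dvd_pow_self 2 (by omega)).trans (level_mem d 2 Nat.prime_two (by omega))

theorem level_good (d : ℕ) : GoodLevel (2 * d) (level d) := by
  intro p j hp hp1 hj hj1
  refine dvd_trans (pow_dvd_pow p ?_) (level_mem d p hp (by omega))
  have h0 : 0 < p - 1 := by have := hp.two_le; omega
  have h1 : p ^ (j - 1) ≤ 12 * d / (p - 1) := by
    rw [Nat.le_div_iff_mul_le h0]
    omega
  have h2 : j - 1 ≤ Nat.log p (12 * d / (p - 1)) := Nat.le_log_of_pow_le hp.one_lt h1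
  have h3 : 3 * (2 * d) / (p - 1) = 6 * d / (p - 1) := by congr 1; ring
  omega

theorem level_dvd {e d : ℕ} (h : e ≤ d) : level e ∣ level d := by
  unfold level
  refine dvd_trans (Finset.prod_dvd_prod_of_dvd _
    (fun p : ℕ => p ^ (1 + Nat.log p (12 * d / (p - 1)) + 6 * d / (p - 1))) ?_)
    (Finset.prod_dvd_prod_of_subset _ _ _ ?_)
  · intro p _
    apply pow_dvd_pow
    have h1 : 12 * e / (p - 1) ≤ 12 * d / (p - 1) := Nat.div_le_div_right (by omega)
    have h2 : 6 * e / (p - 1) ≤ 6 * d / (p - 1) := Nat.div_le_div_right (by omega)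
    have h3 : Nat.log p (12 * e / (p - 1)) ≤ Nat.log p (12 * d / (p - 1)) := Nat.log_mono_right h1
    omega
  · intro p hp
    rw [mem_filter, mem_range] at hp ⊢
    exact ⟨by omega, hp.2⟩

theorem level_dvd_fact (d : ℕ) : level d ∣ (24 * d).factorial := by
  rcases Nat.eq_zero_or_pos d with rfl | hd
  · have : level 0 = 1 := by
      unfold level
      have h : (range (12 * 0 + 2)).filter Nat.Prime = ∅ := by decide
      rw [h, prod_empty]
    rw [this]
    exact one_dvd _
  unfold level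
  refine Finset.prod_dvd_of_isRelPrime ?_ ?_
  · intro p hp q hq hpq
    simp only [coe_filter, mem_range, Set.mem_ofPred_eq] at hp hq
    exact Nat.coprime_iff_isRelPrime.1 (Nat.Coprime.pow _ _ ((Nat.coprime_primes hp.2 hq.2).2 hpq))
  · intro p hp
    rw [mem_filter, mem_range] at hp
    have h0 : 0 < p - 1 := by have := hp.2.two_le; omega
    have h1 : 12 * d / (p - 1) ≠ 0 := by
      rw [Nat.div_ne_zero_iff]
      omega
    have h2 : p ^ Nat.log p (12 * d / (p - 1)) ≤ 12 * d / (p - 1) := Nat.pow_log_le_self p h1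
    have h3 := (Nat.le_div_iff_mul_le h0).1 h2
    have h4 := pow_dvd_fact p (2 * d) (1 + Nat.log p (12 * d / (p - 1))) hp.2 (by omega)
      (by omega) (by omega) (by rw [Nat.add_sub_cancel_left]; omega)
    rw [show 3 * (2 * d) = 6 * d by ring, show 12 * (2 * d) = 24 * d by ring] at h4
    exact h4

end Pool.Agent.helper34.EL
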