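import Pool.Agent.helper34.XL.PPF

/-!
# The structure of `ℤ/q^(j+1)`: units and multiples of `q`
-/

set_option autoImplicit false

namespace Pool.Agent.helper34.EL

open Finset

/-- embedding of `ℤ/q^j` into `ℤ/q^(j+1)` by multiplication by `q` -/
noncomputable def eps (q j : ℕ) : ZMod (q ^ j) →+ ZMod (q ^ (j + 1)) :=
  ZMod.lift (q ^ j) ⟨(zmultiplesHom (ZMod (q ^ (j + 1)))) (q : ZMod (q ^ (j + 1))), by
    rw [zmultiplesHom_apply, natCast_zsmul, nsmul_eq_mul]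
    have : ((q ^ j : ℕ) : ZMod (q ^ (j + 1))) * (q : ZMod (q ^ (j + 1))) =
        ((q ^ (j + 1) : ℕ) : ZMod (q ^ (j + 1))) := by push_cast; ring
    rw [this, ZMod.natCast_self]⟩

/-- reduction -/
noncomputable def ct (q j : ℕ) : ZMod (q ^ (j + 1)) →+* ZMod (q ^ j) :=
  ZMod.castHom (pow_dvd_pow q (Nat.le_succ j)) (ZMod (q ^ j))

theorem eps_int (q j : ℕ) (z : ℤ) : eps q j (z : ZMod (q ^ j)) = q * (z : ZMod (q ^ (j + 1))) := by
  unfold eps
  rw [ZMod.lift_coe]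
  change z • (q : ZMod (q ^ (j + 1))) = _
  rw [zsmul_eq_mul, mul_comm]

theorem ct_int (q j : ℕ) (z : ℤ) : ct q j (z : ZMod (q ^ (j + 1))) = (z : ZMod (q ^ j)) := by
  rw [map_intCast]

theorem ct_surj (q j : ℕ) (d : ZMod (q ^ j)) : ∃ c, ct q j c = d := by
  obtain ⟨z, rfl⟩ := ZMod.intCast_surjective d
  exact ⟨z, ct_int q j z⟩

theorem eps_ct (q j : ℕ) (c : ZMod (q ^ (j + 1))) : eps q j (ct q j c) = q * c := by
  obtain ⟨z, rfl⟩ := ZMod.intCast_surjective c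
  rw [ct_int, eps_int]

theorem ct_eps (q j : ℕ) (d : ZMod (q ^ j)) : ct q j (eps q j d) = q * d := by
  obtain ⟨z, rfl⟩ := ZMod.intCast_surjective d
  rw [eps_int, map_mul, map_natCast, ct_int]

theorem eps_inj (q j : ℕ) (hq : 0 < q) : Function.Injective (eps q j) := by
  rw [injective_iff_map_eq_zero]
  intro d hd
  obtain ⟨z, rfl⟩ := ZMod.intCast_surjective d
  rw [eps_int] at hd
  have h1 : ((q * z : ℤ) : ZMod (q ^ (j + 1))) = 0 := by push_cast; exact hd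
  rw [ZMod.intCast_zmod_eq_zero_iff_dvd] at h1 ⊢
  push_cast at h1 ⊢
  rw [pow_succ, mul_comm] at h1
  exact Int.dvd_of_mul_dvd_mul_left (by exact_mod_cast hq.ne') h1

theorem isUnit_q (q j : ℕ) (hq : q.Prime) (hj : 0 < j) : ¬ IsUnit ((q : ZMod (q ^ j))) := by
  rw [ZMod.isUnit_iff_coprime]
  intro h
  have h1 := Nat.Coprime.coprime_dvd_right (dvd_pow_self q hj.ne') h
  rw [Nat.coprime_self] at h1
  exact hq.one_lt.ne' h1

theorem eps_not_unit (q j : ℕ) (hq : q.Prime) (d : ZMod (q ^ j)) : ¬ IsUnit (eps q j d) := by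
  obtain ⟨z, rfl⟩ := ZMod.intCast_surjective d
  rw [eps_int]
  intro h
  exact isUnit_q q (j + 1) hq (Nat.succ_pos j) (isUnit_of_mul_isUnit_left h)

theorem exists_eps (q j : ℕ) (hq : q.Prime) (c : ZMod (q ^ (j + 1))) (hc : ¬ IsUnit c) :
    ∃ d, eps q j d = c := by
  have : NeZero q := ⟨hq.ne_zero⟩
  rw [← ZMod.natCast_zmod_val c, ZMod.isUnit_iff_coprime] at hc
  have h1 : ¬ Nat.Coprime c.val q := fun h => hc (Nat.Coprime.pow_right _ h)
  rw [Nat.coprime_comm, hq.coprime_iff_not_dvd, not_not] at h1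
  obtain ⟨w, hw⟩ := h1
  refine ⟨((w : ℤ) : ZMod (q ^ j)), ?_⟩
  rw [eps_int]
  conv_rhs => rw [← ZMod.natCast_zmod_val c, hw]
  push_cast
  rfl

theorem ct_not_unit (q j : ℕ) (hq : q.Prime) (hj : 0 < j) (d : ZMod (q ^ j)) :
    ¬ IsUnit ((q : ZMod (q ^ j)) * d) := by
  intro h
  exact isUnit_q q j hq hj (isUnit_of_mul_isUnit_left h)

theorem isUnit_ct_iff (q j : ℕ) (hq : q.Prime) (hj : 0 < j) (c : ZMod (q ^ (j + 1))) :
    IsUnit (ct q j c) ↔ IsUnit c := by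
  refine ⟨fun h => ?_, fun h => h.map (ct q j)⟩
  by_contra hc
  obtain ⟨d, rfl⟩ := exists_eps q j hq c hc
  rw [ct_eps] at h
  exact ct_not_unit q j hq hj d h

theorem exists_mul_of_not_unit (q j : ℕ) (hq : q.Prime) (d : ZMod (q ^ j)) (hd : ¬ IsUnit d) :
    ∃ d₀, d = (q : ZMod (q ^ j)) * d₀ := by
  have : NeZero q := ⟨hq.ne_zero⟩
  rw [← ZMod.natCast_zmod_val d, ZMod.isUnit_iff_coprime] at hd
  have h1 : ¬ Nat.Coprime d.val q := fun h => hd (Nat.Coprime.pow_right _ h)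
  rw [Nat.coprime_comm, hq.coprime_iff_not_dvd, not_not] at h1
  obtain ⟨w, hw⟩ := h1
  refine ⟨(w : ZMod (q ^ j)), ?_⟩
  conv_lhs => rw [← ZMod.natCast_zmod_val d, hw]
  push_cast
  rfl

/-- unit reduction -/
noncomputable def um (q j : ℕ) : (ZMod (q ^ (j + 1)))ˣ →* (ZMod (q ^ j))ˣ :=
  ZMod.unitsMap (pow_dvd_pow q (Nat.le_succ j))

theorem um_val (q j : ℕ) (c : (ZMod (q ^ (j + 1)))ˣ) :
    ((um q j c : (ZMod (q ^ j))ˣ) : ZMod (q ^ j)) = ct q j (c : ZMod (q ^ (j + 1))) := rfl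

theorem um_surj (q j : ℕ) [NeZero q] : Function.Surjective (um q j) :=
  ZMod.unitsMap_surjective _

theorem um_neg (q j : ℕ) (c : (ZMod (q ^ (j + 1)))ˣ) : um q j (-c) = -um q j c := by
  apply Units.ext
  rw [um_val, Units.val_neg, map_neg, Units.val_neg, um_val]

theorem υ_val (N a : ℕ) (h : a.Coprime N) : ((υ N a : (ZMod N)ˣ) : ZMod N) = a := by
  unfold υ
  rw [dif_pos h, ZMod.coe_unitOfCoprime]

theorem um_υ (q j : ℕ) (hq : q.Prime) (a : ℕ) : um q j (υ (q ^ (j + 1)) a) = υ (q ^ j) a := by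
  by_cases h : a.Coprime (q ^ (j + 1))
  · have h' : a.Coprime (q ^ j) := Nat.Coprime.coprime_dvd_right (pow_dvd_pow q (Nat.le_succ j)) h
    apply Units.ext
    rw [um_val, υ_val _ _ h, υ_val _ _ h', map_natCast]
  · have h1 : υ (q ^ (j + 1)) a = 1 := by unfold υ; rw [dif_neg h]
    rw [h1, map_one]
    rcases Nat.eq_zero_or_pos j with rfl | hj
    · have : Subsingleton (ZMod (q ^ 0))ˣ := by rw [pow_zero]; infer_instance
      exact Subsingleton.elim _ _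
    · unfold υ
      rw [dif_neg]
      intro h2
      apply h
      have h3 : a.Coprime q := Nat.Coprime.coprime_dvd_right (dvd_pow_self q hj.ne') h2
      exact Nat.Coprime.pow_right _ h3

/-- push-forward of functions on units -/
noncomputable def tau (q j : ℕ) [NeZero q] (Y : Type) [AddCommGroup Y] :
    ((ZMod (q ^ (j + 1)))ˣ → Y) →+ ((ZMod (q ^ j))ˣ → Y) where
  toFun y d := ∑ c ∈ univ.filter (fun c => um q j c = d), y c
  map_zero' := by funext d; simp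
  map_add' x y := by funext d; simp [Finset.sum_add_distrib]

theorem tau_apply (q j : ℕ) [NeZero q] {Y : Type} [AddCommGroup Y]
    (y : (ZMod (q ^ (j + 1)))ˣ → Y) (d : (ZMod (q ^ j))ˣ) :
    tau q j Y y d = ∑ c ∈ univ.filter (fun c => um q j c = d), y c := rfl

theorem tau_surj (q j : ℕ) [NeZero q] (Y : Type) [AddCommGroup Y] :
    Function.Surjective (tau q j Y) := by
  intro w
  choose s hs using um_surj q j
  refine ⟨fun c => if s (um q j c) = c then w (um q j c) else 0, ?_⟩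
  funext d
  rw [tau_apply, Finset.sum_eq_single (s d)]
  · rw [if_pos, hs]
    rw [hs]
  · intro c hc hcs
    rw [Finset.mem_filter] at hc
    rw [if_neg]
    rw [hc.2]
    exact fun h => hcs h.symm
  · intro h
    apply absurd _ h
    rw [Finset.mem_filter]
    exact ⟨mem_univ _, hs d⟩

theorem tau_φ (q j : ℕ) [NeZero q] (hq : q.Prime) {Y : Type} [AddCommGroup Y] (𝒴 : CS Y) (a : ℕ)
    (y : (ZMod (q ^ (j + 1)))ˣ → Y) :
    tau q j Y ((FunCS (q ^ (j + 1)) 𝒴).φ a y) = (FunCS (q ^ j) 𝒴).φ a (tau q j Y y) := by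
  funext d
  change ∑ c ∈ univ.filter (fun c => um q j c = d), 𝒴.φ a (y (υ (q ^ (j + 1)) a * c)) =
    𝒴.φ a (∑ c ∈ univ.filter (fun c => um q j c = υ (q ^ j) a * d), y c)
  rw [map_sum]
  refine Finset.sum_nbij' (fun c => υ (q ^ (j + 1)) a * c) (fun c => (υ (q ^ (j + 1)) a)⁻¹ * c)
    ?_ ?_ ?_ ?_ ?_
  · intro c hc
    rw [Finset.mem_filter] at hc ⊢
    exact ⟨mem_univ _, by rw [map_mul, um_υ q j hq, hc.2]⟩
  · intro c hc
    rw [Finset.mem_filter] at hc ⊢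
    exact ⟨mem_univ _, by rw [map_mul, map_inv, um_υ q j hq, hc.2, inv_mul_cancel_left]⟩
  · intro c _; simp
  · intro c _; simp
  · intro c _; rfl

theorem tau_ι (q j : ℕ) [NeZero q] {Y : Type} [AddCommGroup Y] (𝒴 : CS Y)
    (y : (ZMod (q ^ (j + 1)))ˣ → Y) :
    tau q j Y ((FunCS (q ^ (j + 1)) 𝒴).ι y) = (FunCS (q ^ j) 𝒴).ι (tau q j Y y) := by
  funext d
  change ∑ c ∈ univ.filter (fun c => um q j c = d), 𝒴.ι (y (-c)) =
    𝒴.ι (∑ c ∈ univ.filter (fun c => um q j c = -d), y c)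
  rw [map_sum]
  refine Finset.sum_nbij' (fun c => -c) (fun c => -c) ?_ ?_ ?_ ?_ ?_
  · intro c hc
    rw [Finset.mem_filter] at hc ⊢
    exact ⟨mem_univ _, by rw [um_neg, hc.2]⟩
  · intro c hc
    rw [Finset.mem_filter] at hc ⊢
    exact ⟨mem_univ _, by rw [um_neg, hc.2, neg_neg]⟩
  · intro c _; simp
  · intro c _; simp
  · intro c _; rfl

end Pool.Agent.helper34.EL
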