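import Pool.Agent.helper34.XL.LP1

/-!
# Distributions on `ℤ/q^(j+1) × X` in terms of those on `ℤ/q^j × X` and on units
-/

set_option autoImplicit false

namespace Pool.Agent.helper34.EL

open Finset

/-- the primes at stage `j` -/
def SS (S : Set ℕ) (q j : ℕ) : Set ℕ := {a | a ∈ S ∨ (a = q ∧ 0 < j)}

theorem prodsum1 {C X Y : Type} [AddCommGroup C] [Fintype C] [DecidableEq C] [AddCommGroup X]
    [Fintype X] [DecidableEq X] [AddCommGroup Y] (a : ℕ) (hC : ∀ c c' : C, a • c = a • c' → c = c')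
    (g : C × X → Y) (c : C) (x : X) :
    ∑ y ∈ univ.filter (fun y : C × X => a • y = a • (c, x)), g y =
      ∑ y ∈ univ.filter (fun y : X => a • y = a • x), g (c, y) := by
  refine Finset.sum_nbij' (fun y => y.2) (fun y => (c, y)) ?_ ?_ ?_ ?_ ?_
  · rintro ⟨c', y⟩ hy
    rw [Finset.mem_filter] at hy ⊢
    exact ⟨mem_univ _, (Prod.ext_iff.1 hy.2).2⟩
  · intro y hy
    rw [Finset.mem_filter] at hy ⊢
    exact ⟨mem_univ _, Prod.ext rfl hy.2⟩
  · rintro ⟨c', y⟩ hy
    rw [Finset.mem_filter] at hy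
    exact Prod.ext (hC _ _ (Prod.ext_iff.1 hy.2).1).symm rfl
  · intro y _; rfl
  · rintro ⟨c', y⟩ hy
    rw [Finset.mem_filter] at hy
    have h1 : c' = c := hC _ _ (Prod.ext_iff.1 hy.2).1
    subst h1
    rfl

theorem prodsum2 {C X Y : Type} [AddCommGroup C] [Fintype C] [DecidableEq C] [AddCommGroup X]
    [Fintype X] [DecidableEq X] [AddCommGroup Y] (a : ℕ) (hX : ∀ x x' : X, a • x = a • x' → x = x')
    (g : C × X → Y) (c : C) (x : X) :
    ∑ y ∈ univ.filter (fun y : C × X => a • y = a • (c, x)), g y =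
      ∑ y ∈ univ.filter (fun y : C => a • y = a • c), g (y, x) := by
  refine Finset.sum_nbij' (fun y => y.1) (fun y => (y, x)) ?_ ?_ ?_ ?_ ?_
  · rintro ⟨c', y⟩ hy
    rw [Finset.mem_filter] at hy ⊢
    exact ⟨mem_univ _, (Prod.ext_iff.1 hy.2).1⟩
  · intro y hy
    rw [Finset.mem_filter] at hy ⊢
    exact ⟨mem_univ _, Prod.ext hy.2 rfl⟩
  · rintro ⟨c', y⟩ hy
    rw [Finset.mem_filter] at hy
    exact Prod.ext rfl (hX _ _ (Prod.ext_iff.1 hy.2).2).symm
  · intro y _; rfl
  · rintro ⟨c', y⟩ hy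
    rw [Finset.mem_filter] at hy
    have h1 : y = x := hX _ _ (Prod.ext_iff.1 hy.2).2
    subst h1
    rfl

section

variable (q j : ℕ) [NeZero q] {X Y : Type} [AddCommGroup X] [Fintype X] [DecidableEq X]
  [AddCommGroup Y]

/-- restriction to multiples of `q` -/
noncomputable def old (g : ZMod (q ^ (j + 1)) × X → Y) : ZMod (q ^ j) × X → Y :=
  fun p => g (eps q j p.1, p.2)

/-- restriction to units -/
def new (g : ZMod (q ^ (j + 1)) × X → Y) : X → ((ZMod (q ^ (j + 1)))ˣ → Y) :=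
  fun x u => g ((u : ZMod (q ^ (j + 1))), x)

/-- the source term of the relation at `q` -/
noncomputable def Sop (𝒴 : CS Y) (g : ZMod (q ^ j) × X → Y) : X → ((ZMod (q ^ j))ˣ → Y) :=
  fun x d => 𝒴.φ q (g ((d : ZMod (q ^ j)), q • x)) - (if j = 0 then g ((d : ZMod (q ^ j)), x) else 0)

theorem inj_of_coprime (a : ℕ) (ha : a.Coprime q) (c c' : ZMod (q ^ j)) (h : a • c = a • c') :
    c = c' := by
  rw [nsmul_eq_mul, nsmul_eq_mul] at h
  have hu : IsUnit (a : ZMod (q ^ j)) := by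
    rw [ZMod.isUnit_iff_coprime]; exact Nat.Coprime.pow_right _ ha
  exact hu.mul_left_cancel h

theorem fib_ct (c c' : ZMod (q ^ (j + 1))) : q • c' = q • c ↔ ct q j c' = ct q j c := by
  rw [nsmul_eq_mul, nsmul_eq_mul, ← eps_ct, ← eps_ct]
  exact (eps_inj q j (Nat.pos_of_ne_zero (NeZero.ne q))).eq_iff

/-- the relation at `q` -/
theorem rel_q_iff (𝒴 : CS Y) (hX : ∀ x x' : X, q • x = q • x' → x = x')
    (g : ZMod (q ^ (j + 1)) × X → Y) :
    (∀ y : ZMod (q ^ (j + 1)) × X,
      ∑ z ∈ univ.filter (fun z => q • z = q • y), g z = 𝒴.φ q (g (q • y))) ↔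
    ∀ (d : ZMod (q ^ j)) (x : X), ∑ c ∈ univ.filter (fun c => ct q j c = d), g (c, x) =
      𝒴.φ q (g (eps q j d, q • x)) := by
  constructor
  · intro h d x
    obtain ⟨c, rfl⟩ := ct_surj q j d
    have h1 := h (c, x)
    rw [prodsum2 q hX] at h1
    simp only [fib_ct] at h1
    rw [h1, eps_ct, Prod.smul_mk, nsmul_eq_mul q c]
  · rintro h ⟨c, x⟩
    rw [prodsum2 q hX]
    simp only [fib_ct]
    rw [h, eps_ct, Prod.smul_mk, nsmul_eq_mul q c]

/-- the relations at the other primes -/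
theorem rel_a_iff (𝒴 : CS Y) (hq : q.Prime) (a : ℕ) (ha : a.Coprime q)
    (g : ZMod (q ^ (j + 1)) × X → Y) :
    (∀ y : ZMod (q ^ (j + 1)) × X,
      ∑ z ∈ univ.filter (fun z => a • z = a • y), g z = 𝒴.φ a (g (a • y))) ↔
    (∀ y : ZMod (q ^ j) × X,
      ∑ z ∈ univ.filter (fun z => a • z = a • y), old q j g z = 𝒴.φ a (old q j g (a • y))) ∧
    (∀ x : X, ∑ z ∈ univ.filter (fun z => a • z = a • x), new q j g z =
      (FunCS (q ^ (j + 1)) 𝒴).φ a (new q j g (a • x))) := by
  have hco : a.Coprime (q ^ (j + 1)) := Nat.Coprime.pow_right _ ha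
  have hυ : ∀ u : (ZMod (q ^ (j + 1)))ˣ,
      ((υ (q ^ (j + 1)) a * u : (ZMod (q ^ (j + 1)))ˣ) : ZMod (q ^ (j + 1))) = a • (u : ZMod _) := by
    intro u
    rw [Units.val_mul, υ_val _ _ hco, nsmul_eq_mul]
  constructor
  · intro h
    constructor
    · rintro ⟨d, x⟩
      have h1 := h (eps q j d, x)
      rw [prodsum1 a (inj_of_coprime q (j + 1) a ha)] at h1
      rw [prodsum1 a (inj_of_coprime q j a ha)]
      simp only [old]
      rw [h1, Prod.smul_mk, Prod.smul_mk, map_nsmul]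
    · intro x
      funext u
      have h1 := h ((u : ZMod _), x)
      rw [prodsum1 a (inj_of_coprime q (j + 1) a ha)] at h1
      rw [Finset.sum_apply]
      change ∑ z ∈ univ.filter (fun z => a • z = a • x), g ((u : ZMod _), z) =
        𝒴.φ a (g (((υ (q ^ (j + 1)) a * u : (ZMod (q ^ (j + 1)))ˣ) : ZMod _), a • x))
      rw [h1, hυ, Prod.smul_mk]
  · rintro ⟨h0, h1⟩ ⟨c, x⟩
    rw [prodsum1 a (inj_of_coprime q (j + 1) a ha)]
    by_cases hc : IsUnit c
    · obtain ⟨u, rfl⟩ := hc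
      have h2 := congrFun (h1 x) u
      rw [Finset.sum_apply] at h2
      change ∑ z ∈ univ.filter (fun z => a • z = a • x), g ((u : ZMod _), z) =
        𝒴.φ a (g (((υ (q ^ (j + 1)) a * u : (ZMod (q ^ (j + 1)))ˣ) : ZMod _), a • x)) at h2
      rw [h2, hυ, Prod.smul_mk]
    · obtain ⟨d, rfl⟩ := exists_eps q j hq c hc
      have h2 := h0 (d, x)
      rw [prodsum1 a (inj_of_coprime q j a ha)] at h2
      simp only [old] at h2
      rw [h2, Prod.smul_mk, Prod.smul_mk, map_nsmul]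

/-- units over a unit -/
theorem sum_units (g : ZMod (q ^ (j + 1)) × X → Y) (d : (ZMod (q ^ j))ˣ) (x : X) :
    tau q j Y (new q j g x) d =
      ∑ c ∈ univ.filter (fun c : ZMod (q ^ (j + 1)) => IsUnit c ∧ ct q j c = d), g (c, x) := by
  rw [tau_apply]
  refine Finset.sum_bij (fun u _ => (u : ZMod (q ^ (j + 1)))) ?_ ?_ ?_ ?_
  · intro u hu
    rw [Finset.mem_filter] at hu ⊢
    exact ⟨mem_univ _, u.isUnit, by rw [← um_val, hu.2]⟩
  · intro u _ v _ h
    exact Units.ext h
  · intro c hc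
    rw [Finset.mem_filter] at hc
    obtain ⟨-, ⟨u, rfl⟩, hc2⟩ := hc
    refine ⟨u, ?_, rfl⟩
    rw [Finset.mem_filter]
    exact ⟨mem_univ _, Units.ext (by rw [um_val, hc2])⟩
  · intro u _; rfl

/-- multiples of `q` over a multiple of `q` -/
theorem sum_mult (hq : q.Prime) (hj : 0 < j) (g : ZMod (q ^ (j + 1)) × X → Y) (d : ZMod (q ^ j))
    (x : X) :
    ∑ c ∈ univ.filter (fun c : ZMod (q ^ (j + 1)) => ct q j c = (q : ZMod (q ^ j)) * d), g (c, x) =
      ∑ d' ∈ univ.filter (fun d' : ZMod (q ^ j) => q • d' = q • d), old q j g (d', x) := by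
  symm
  refine Finset.sum_bij (fun d' _ => eps q j d') ?_ ?_ ?_ ?_
  · intro d' hd
    rw [Finset.mem_filter] at hd ⊢
    refine ⟨mem_univ _, ?_⟩
    rw [ct_eps, ← nsmul_eq_mul, hd.2, nsmul_eq_mul]
  · intro d' _ d'' _ h
    exact eps_inj q j hq.pos h
  · intro c hc
    rw [Finset.mem_filter] at hc
    have h1 : ¬ IsUnit c := by
      rw [← isUnit_ct_iff q j hq hj, hc.2]
      exact ct_not_unit q j hq hj d
    obtain ⟨d', rfl⟩ := exists_eps q j hq c h1
    refine ⟨d', ?_, rfl⟩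
    rw [Finset.mem_filter]
    refine ⟨mem_univ _, ?_⟩
    rw [nsmul_eq_mul, nsmul_eq_mul, ← ct_eps, hc.2]
  · intro d' _; rfl

/-- the relation at `q` in terms of the two pieces -/
theorem rel_q_split (hq : q.Prime) (𝒴 : CS Y) (hX : ∀ x x' : X, q • x = q • x' → x = x')
    (g : ZMod (q ^ (j + 1)) × X → Y) :
    (∀ (d : ZMod (q ^ j)) (x : X), ∑ c ∈ univ.filter (fun c => ct q j c = d), g (c, x) =
      𝒴.φ q (g (eps q j d, q • x))) ↔
    (∀ x, tau q j Y (new q j g x) = Sop q j 𝒴 (old q j g) x) ∧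
    (0 < j → ∀ y : ZMod (q ^ j) × X,
      ∑ z ∈ univ.filter (fun z => q • z = q • y), old q j g z = 𝒴.φ q (old q j g (q • y))) := by
  rcases Nat.eq_zero_or_pos j with rfl | hj
  · -- level zero
    have hsub : Subsingleton (ZMod (q ^ 0)) := by rw [pow_zero]; infer_instance
    have key : ∀ (d : (ZMod (q ^ 0))ˣ) (x : X),
        ∑ c ∈ univ.filter (fun c => ct q 0 c = (d : ZMod (q ^ 0))), g (c, x) =
          tau q 0 Y (new q 0 g x) d + g (eps q 0 d, x) := by
      intro d x
      rw [sum_units, ← Finset.sum_filter_add_sum_filter_not _ (fun c => IsUnit c),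
        Finset.filter_filter, Finset.filter_filter]
      congr 1
      · refine Finset.sum_congr ?_ fun _ _ => rfl
        ext c
        simp only [Finset.mem_filter, mem_univ, true_and]
        exact and_comm
      · rw [Finset.sum_eq_single (eps q 0 d)]
        · intro c hc hne
          rw [Finset.mem_filter] at hc
          obtain ⟨d', rfl⟩ := exists_eps q 0 hq c hc.2.2
          exact absurd (congrArg (eps q 0) (Subsingleton.elim d' _)) hne
        · intro h
          exfalso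
          apply h
          rw [Finset.mem_filter]
          exact ⟨mem_univ _, Subsingleton.elim _ _, eps_not_unit q 0 hq _⟩
    constructor
    · intro h
      refine ⟨fun x => ?_, fun h0 => absurd h0 (lt_irrefl _)⟩
      funext d
      have h1 := h (d : ZMod (q ^ 0)) x
      rw [key] at h1
      unfold Sop
      rw [if_pos rfl]
      exact eq_sub_of_add_eq h1
    · rintro ⟨h, -⟩ d x
      have h1 := congrFun (h x) 1
      unfold Sop at h1
      rw [if_pos rfl] at h1
      have hd : d = ((1 : (ZMod (q ^ 0))ˣ) : ZMod (q ^ 0)) := Subsingleton.elim _ _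
      rw [hd, key, h1]
      simp only [old]
      exact sub_add_cancel _ _
  · constructor
    · intro h
      constructor
      · intro x
        funext d
        have h1 := h (d : ZMod (q ^ j)) x
        rw [sum_units]
        unfold Sop
        rw [if_neg hj.ne', sub_zero]
        simp only [old]
        rw [← h1]
        refine Finset.sum_congr ?_ fun _ _ => rfl
        ext c
        simp only [Finset.mem_filter, mem_univ, true_and]
        refine ⟨fun hc => hc.2, fun hc => ⟨?_, hc⟩⟩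
        rw [← isUnit_ct_iff q j hq hj, hc]
        exact d.isUnit
      · rintro - ⟨d, x⟩
        rw [prodsum2 q hX, ← sum_mult q j hq hj, h]
        simp only [old]
        rw [← nsmul_eq_mul, Prod.smul_mk]
    · rintro ⟨h0, h1⟩ d x
      by_cases hd : IsUnit d
      · obtain ⟨u, rfl⟩ := hd
        have h2 := congrFun (h0 x) u
        rw [sum_units] at h2
        unfold Sop at h2
        rw [if_neg hj.ne', sub_zero] at h2
        simp only [old] at h2
        rw [← h2]
        refine Finset.sum_congr ?_ fun _ _ => rfl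
        ext c
        simp only [Finset.mem_filter, mem_univ, true_and]
        refine ⟨fun hc => ⟨?_, hc⟩, fun hc => hc.2⟩
        rw [← isUnit_ct_iff q j hq hj, hc]
        exact u.isUnit
      · obtain ⟨d₀, rfl⟩ := exists_mul_of_not_unit q j hq d hd
        rw [sum_mult q j hq hj]
        have h2 := h1 hj (d₀, x)
        rw [prodsum2 q hX] at h2
        rw [h2]
        simp only [old]
        rw [← nsmul_eq_mul, Prod.smul_mk]

theorem dist_iff (hq : q.Prime) (𝒴 : CS Y) (S : Set ℕ) (hS : ∀ a ∈ S, a.Coprime q)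
    (hX : ∀ x x' : X, q • x = q • x' → x = x') (g : ZMod (q ^ (j + 1)) × X → Y) :
    IsDist 𝒴 (SS S q (j + 1)) g ↔
      IsDist 𝒴 (SS S q j) (old q j g) ∧ IsDist (FunCS (q ^ (j + 1)) 𝒴) S (new q j g) ∧
        ∀ x, tau q j Y (new q j g x) = Sop q j 𝒴 (old q j g) x := by
  constructor
  · intro h
    have hq' := (rel_q_split q j hq 𝒴 hX g).1 ((rel_q_iff q j 𝒴 hX g).1
      (h q (Or.inr ⟨rfl, Nat.succ_pos j⟩)))
    refine ⟨?_, ?_, hq'.1⟩
    · rintro a (ha | ⟨rfl, hj⟩)
      · exact ((rel_a_iff q j 𝒴 hq a (hS a ha) g).1 (h a (Or.inl ha))).1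
      · exact hq'.2 hj
    · intro a ha
      exact ((rel_a_iff q j 𝒴 hq a (hS a ha) g).1 (h a (Or.inl ha))).2
  · rintro ⟨h0, h1, h2⟩ a (ha | ⟨rfl, -⟩)
    · exact (rel_a_iff q j 𝒴 hq a (hS a ha) g).2 ⟨h0 a (Or.inl ha), h1 a ha⟩
    · exact (rel_q_iff a j 𝒴 hX g).2 ((rel_q_split a j hq 𝒴 hX g).2
        ⟨h2, fun hj => h0 a (Or.inr ⟨rfl, hj⟩)⟩)

end

end Pool.Agent.helper34.EL
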