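import Pool.Agent.helper34.EL.Defs

/-!
# Functions on `(ℤ/N)ˣ`: invariants are norms
-/

set_option autoImplicit false

namespace Pool.Agent.helper34.EL

open Finset

theorem PPF_fun_norm (N : ℕ) [NeZero N] {Y : Type} [AddCommGroup Y] (ι : Y →+ Y)
    (y : (ZMod N)ˣ → Y) (h : ∀ b, ι (y (-b)) = y b)
    (hfix : ∀ b : (ZMod N)ˣ, -b = b → ∃ z, y b = z + ι z) :
    ∃ z : (ZMod N)ˣ → Y, ∀ b, y b = z b + ι (z (-b)) := by
  classical
  have hc : ∀ b : (ZMod N)ˣ, ∃ z, -b = b → y b = z + ι z := by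
    intro b
    by_cases hb : -b = b
    · obtain ⟨z, hz⟩ := hfix b hb
      exact ⟨z, fun _ => hz⟩
    · exact ⟨0, fun h => absurd h hb⟩
  choose c hc using hc
  set v : (ZMod N)ˣ → ℕ := fun b => (b : ZMod N).val with hv
  have hvinj : ∀ b b' : (ZMod N)ˣ, v b = v b' → b = b' := by
    intro b b' hbb
    exact Units.ext (ZMod.val_injective N hbb)
  refine ⟨fun b => if v b < v (-b) then y b else if -b = b then c b else 0, fun b => ?_⟩
  simp only [neg_neg]
  rcases lt_trichotomy (v b) (v (-b)) with h1 | h1 | h1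
  · rw [if_pos h1, if_neg (by omega), if_neg, map_zero, add_zero]
    intro h2
    rw [← h2] at h1
    exact lt_irrefl _ h1
  · have hb : -b = b := (hvinj _ _ h1).symm
    rw [if_neg (by omega), if_pos hb, if_neg (by omega), if_pos hb.symm]
    have := hc b hb
    rw [hb]
    exact this
  · rw [if_neg (by omega), if_neg, if_pos h1, zero_add, h]
    intro h2
    rw [h2] at h1
    exact lt_irrefl _ h1

theorem PP_fun (N : ℕ) [NeZero N] {Y : Type} [AddCommGroup Y] (𝒴 : CS Y) (h : PP 𝒴) :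
    PP (FunCS N 𝒴) := by
  constructor
  · intro y hy
    have hy' : ∀ b, 𝒴.ι (y (-b)) = y b := fun b => congrFun hy b
    obtain ⟨z, hz⟩ := PPF_fun_norm N 𝒴.ι y hy' (fun b hb => h.1 (y b) (by
      have := hy' b
      rwa [hb] at this))
    exact ⟨z, funext fun b => hz b⟩
  · intro y hy
    have hy' : ∀ b, (-𝒴.ι) (y (-b)) = y b := fun b => by
      have h1 : 𝒴.ι (y (-b)) = -y b := congrFun hy b
      rw [AddMonoidHom.neg_apply, h1, neg_neg]
    obtain ⟨z, hz⟩ := PPF_fun_norm N (-𝒴.ι) y hy' (fun b hb => by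
      have h1 := hy' b
      rw [hb, AddMonoidHom.neg_apply, neg_eq_iff_eq_neg] at h1
      obtain ⟨z, hz⟩ := h.2 (y b) h1
      exact ⟨z, by rw [AddMonoidHom.neg_apply, ← sub_eq_add_neg]; exact hz⟩)
    refine ⟨z, funext fun b => ?_⟩
    have := hz b
    rw [AddMonoidHom.neg_apply, ← sub_eq_add_neg] at this
    exact this

theorem PP_fun_free (N : ℕ) [NeZero N] {Y : Type} [AddCommGroup Y] (𝒴 : CS Y)
    (h : ∀ b : (ZMod N)ˣ, -b ≠ b) : PP (FunCS N 𝒴) := by
  constructor
  · intro y hy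
    have hy' : ∀ b, 𝒴.ι (y (-b)) = y b := fun b => congrFun hy b
    obtain ⟨z, hz⟩ := PPF_fun_norm N 𝒴.ι y hy' (fun b hb => absurd hb (h b))
    exact ⟨z, funext fun b => hz b⟩
  · intro y hy
    have hy' : ∀ b, (-𝒴.ι) (y (-b)) = y b := fun b => by
      have h1 : 𝒴.ι (y (-b)) = -y b := congrFun hy b
      rw [AddMonoidHom.neg_apply, h1, neg_neg]
    obtain ⟨z, hz⟩ := PPF_fun_norm N (-𝒴.ι) y hy' (fun b hb => absurd hb (h b))
    refine ⟨z, funext fun b => ?_⟩
    have := hz b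
    rw [AddMonoidHom.neg_apply, ← sub_eq_add_neg] at this
    exact this

end Pool.Agent.helper34.EL
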