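import Pool.Agent.helper9.XL.RED
import Pool.Agent.helper34.XL.LEV

/-!
# Reduction of the level, for a general level (after helper9's `XL/RED`)
-/

set_option autoImplicit false

namespace Pool.Agent.helper34.EL

open Finset Pool.Agent.helper34.DH Pool.Agent.helper76.FV

theorem reduce_prime_gen (n : ℕ) [NeZero n] {k : ℕ} (L : ℕ) (hL : GoodLevel k L)
    (p : ℕ) (hp : p.Prime) {ι : Type}
    [Fintype ι] [DecidableEq ι] (hι : Fintype.card ι ≤ k) (a : ι → ZMod n) (ha : Rel n a) :
    ∃ J : Finset ι, (∀ i ∈ J, ∀ e : ℕ, p ^ e ∣ addOrderOf (a i) → p ^ e ∣ L) ∧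
      (∀ u : (ZMod n)ˣ, ∑ i ∈ J, saw n ((u : ZMod n) * a i) = 0) ∧
      ∑ i ∈ univ \ J, En n (a i) = 0 := by
  obtain ⟨f, n', hpn, hn⟩ := Nat.exists_eq_pow_mul_and_not_dvd (NeZero.ne n) p hp.ne_one
  have hcard : ∀ c : ZMod n, Fintype.card {i // c * a i ≠ 0} ≤ k := fun c =>
    (Fintype.card_subtype_le _).trans hι
  by_cases h6 : 6 * k < p - 1
  · have hG := gap0 n p f n' hp hn hpn a ha (by omega)
    have hR := RED_rel n a (n' : ZMod n) hG
    have hE := En_top n p f n' 0 hp hn hpn (fun i : {i // (n' : ZMod n) * a i ≠ 0} => a i.1) hR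
      (fun i => by rw [pow_zero, one_mul]; exact i.2)
      (by rw [pow_zero, one_mul]; have := hcard (n' : ZMod n); omega)
    obtain ⟨h1, h2⟩ := RED_core n a ha (n' : ZMod n) hG hE
    refine ⟨_, ?_, h1, h2⟩
    intro i hi e he
    rw [mem_filter] at hi
    have h3 : p ^ e ∣ n' := he.trans (RED_order_dvd n (a i) n' hi.2)
    rcases Nat.eq_zero_or_pos e with rfl | he0
    · rw [pow_zero]; exact one_dvd _
    · exact absurd ((dvd_pow_self p he0.ne').trans h3) hpn
  · have hex : ∃ j, 6 * k < p ^ j * (p - 1) := by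
      refine ⟨6 * k, ?_⟩
      have h1 : 6 * k < p ^ (6 * k) := Nat.lt_pow_self hp.one_lt
      have h2 : 1 ≤ p - 1 := by have := hp.two_le; omega
      calc 6 * k < p ^ (6 * k) := h1
        _ ≤ p ^ (6 * k) * (p - 1) := Nat.le_mul_of_pos_right _ h2
    classical
    obtain ⟨j₀, hj₀, hmin⟩ : ∃ j₀, 6 * k < p ^ j₀ * (p - 1) ∧ ∀ j < j₀, ¬ 6 * k < p ^ j * (p - 1) :=
      ⟨Nat.find hex, Nat.find_spec hex, fun j hj => Nat.find_min hex hj⟩
    have hj₀0 : 0 < j₀ := by
      rcases Nat.eq_zero_or_pos j₀ with h | h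
      · rw [h, pow_zero, one_mul] at hj₀
        exact absurd hj₀ h6
      · exact h
    obtain ⟨j, hj1, hj2, hw⟩ := pigeon n p f n' j₀ hp hn hpn a
    have hj0 : 0 < j := lt_of_lt_of_le hj₀0 hj1
    have hG := gap n p f n' j hp hj0 hn hpn a ha hw
    have hR := RED_rel n a ((p ^ j * n' : ℕ) : ZMod n) hG
    have hpj : p ^ j₀ * (p - 1) ≤ p ^ j * (p - 1) :=
      Nat.mul_le_mul_right _ (Nat.pow_le_pow_right hp.pos hj1)
    have hE := En_top n p f n' j hp hn hpn
      (fun i : {i // ((p ^ j * n' : ℕ) : ZMod n) * a i ≠ 0} => a i.1) hR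
      (fun i => i.2) (by have := hcard ((p ^ j * n' : ℕ) : ZMod n); omega)
    obtain ⟨h1, h2⟩ := RED_core n a ha ((p ^ j * n' : ℕ) : ZMod n) hG hE
    refine ⟨_, ?_, h1, h2⟩
    intro i hi e he
    rw [mem_filter] at hi
    have h3 : p ^ e ∣ p ^ j * n' := he.trans (RED_order_dvd n (a i) _ hi.2)
    have h4 : p ^ e ∣ p ^ j := by
      have hco : Nat.Coprime (p ^ e) n' := Nat.Coprime.pow_left _ ((Nat.Prime.coprime_iff_not_dvd hp).2 hpn)
      exact hco.dvd_of_dvd_mul_right h3
    have h5 : p ^ j ∣ p ^ (j₀ + 3 * k / (p - 1)) := by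
      apply pow_dvd_pow
      refine hj2.trans ?_
      have : 3 * Fintype.card ι / (p - 1) ≤ 3 * k / (p - 1) := Nat.div_le_div_right (by omega)
      omega
    have h7 : p ^ (j₀ - 1) * (p - 1) ≤ 6 * k := not_lt.1 (hmin (j₀ - 1) (by omega))
    exact (h4.trans h5).trans (hL p j₀ hp (by omega) hj₀0 h7)

theorem RED_iter_gen (n : ℕ) [NeZero n] {k : ℕ} (L : ℕ) (hL : GoodLevel k L) (a : Fin k → ZMod n) (ha : Rel n a)
    (P : Finset ℕ) (hP : ∀ p ∈ P, p.Prime) :
    ∃ J : Finset (Fin k), (∀ i ∈ J, ∀ p ∈ P, ∀ e : ℕ, p ^ e ∣ addOrderOf (a i) →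
        p ^ e ∣ L) ∧
      (∀ u : (ZMod n)ˣ, ∑ i ∈ J, saw n ((u : ZMod n) * a i) = 0) ∧
      ∑ i ∈ univ \ J, En n (a i) = 0 := by
  classical
  induction P using Finset.induction_on with
  | empty =>
    refine ⟨univ, fun i _ p hp => absurd hp (notMem_empty p), ha, by simp⟩
  | insert p P hpP ih =>
    obtain ⟨J, h1, h2, h3⟩ := ih (fun q hq => hP q (mem_insert_of_mem hq))
    have hR : Rel n (fun i : {i // i ∈ J} => a i.1) := by
      intro u
      rw [← h2 u]
      exact Finset.sum_coe_sort J (fun i => saw n ((u : ZMod n) * a i))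
    obtain ⟨J', g1, g2, g3⟩ := reduce_prime_gen n L hL p (hP p (mem_insert_self _ _))
      (by rw [Fintype.card_coe]; exact (card_le_univ J).trans (by simp)) (fun i : {i // i ∈ J} => a i.1) hR
    refine ⟨J'.map ⟨Subtype.val, Subtype.val_injective⟩, ?_, ?_, ?_⟩
    · intro i hi q hq e he
      rw [mem_map] at hi
      obtain ⟨i', hi', rfl⟩ := hi
      rcases mem_insert.1 hq with rfl | hq
      · exact g1 i' hi' e he
      · exact h1 i'.1 i'.2 q hq e he
    · intro u
      rw [sum_map]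
      exact g2 u
    · have hsub : J'.map ⟨Subtype.val, Subtype.val_injective⟩ ⊆ J := by
        intro i hi
        rw [mem_map] at hi
        obtain ⟨i', hi', rfl⟩ := hi
        exact i'.2
      have h4 : ∑ i ∈ J \ J'.map ⟨Subtype.val, Subtype.val_injective⟩, En n (a i) = 0 := by
        have h5 : J \ J'.map ⟨Subtype.val, Subtype.val_injective⟩ =
            (univ \ J').map ⟨Subtype.val, Subtype.val_injective⟩ := by
          ext i
          simp only [mem_sdiff, mem_map, mem_univ, true_and, Function.Embedding.coeFn_mk,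
            Subtype.exists, exists_and_right, exists_eq_right]
          constructor
          · rintro ⟨hi, hi'⟩
            exact ⟨hi, fun h => hi' ⟨hi, h⟩⟩
          · rintro ⟨hi, hi'⟩
            exact ⟨hi, fun ⟨_, h⟩ => hi' h⟩
        rw [h5, sum_map]
        exact g3
      have h6 : univ \ J'.map ⟨Subtype.val, Subtype.val_injective⟩ =
          (univ \ J) ∪ (J \ J'.map ⟨Subtype.val, Subtype.val_injective⟩) := by
        ext i
        simp only [mem_sdiff, mem_univ, true_and, mem_union]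
        constructor
        · intro hi
          by_cases hiJ : i ∈ J
          · exact Or.inr ⟨hiJ, hi⟩
          · exact Or.inl hiJ
        · rintro (hi | hi)
          · exact fun h => hi (hsub h)
          · exact hi.2
      have hdisj : Disjoint (univ \ J) (J \ J'.map ⟨Subtype.val, Subtype.val_injective⟩) := by
        rw [Finset.disjoint_left]
        intro i hi hi'
        rw [mem_sdiff] at hi hi'
        exact hi.2 hi'.1
      rw [h6, sum_union hdisj, h3, h4, add_zero]

theorem reduce_level_gen (n : ℕ) [NeZero n] {k : ℕ} (L : ℕ) (hL : GoodLevel k L) (a : Fin k → ZMod n) (ha : Rel n a) :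
    ∃ J : Finset (Fin k), (∀ i ∈ J, ((L : ℕ) : ZMod n) * a i = 0) ∧
      ∑ i ∈ univ \ J, En n (a i) = 0 := by
  obtain ⟨J, h1, _, h3⟩ := RED_iter_gen n L hL a ha n.primeFactors (fun p hp => Nat.prime_of_mem_primeFactors hp)
  refine ⟨J, fun i hi => ?_, h3⟩
  rw [← nsmul_eq_mul, ← addOrderOf_dvd_iff_nsmul_eq_zero, Nat.dvd_iff_prime_pow_dvd_dvd]
  intro p e hp he
  rcases Nat.eq_zero_or_pos e with rfl | he0
  · rw [pow_zero]; exact one_dvd _
  · have hn : addOrderOf (a i) ∣ n := RED_order_dvd n (a i) n (by rw [ZMod.natCast_self, zero_mul])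
    have hpn : p ∣ n := ((dvd_pow_self p he0.ne').trans he).trans hn
    exact h1 i hi p (Nat.mem_primeFactors.2 ⟨hp, hpn, NeZero.ne n⟩) e he

end Pool.Agent.helper34.EL
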